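import Pool.Agent.N246.MZ.Lip

set_option autoImplicit false
open MeasureTheory Set Filter Topology
open scoped ENNReal NNReal Convolution

namespace Pool.Agent.N246.MZ

/-- the dual weight `U^{-1/(p-1)}`, with the value `∞` where `U` vanishes -/
noncomputable def sig (p : ℝ) (U : ℝ → ℝ≥0) (x : ℝ) : ℝ≥0∞ := (U x : ℝ≥0∞) ^ (-(1 / (p - 1)))

theorem sig_meas {p : ℝ} {U : ℝ → ℝ≥0} (hU : Measurable U) : Measurable (sig p U) := by
  unfold sig
  fun_prop

theorem pow_mul_le {p : ℝ} (hp : 1 < p) {U : ℝ → ℝ≥0} {x : ℝ} {t : ℝ≥0∞} (ht : t ≤ sig p U x) :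
    t ^ p * U x ≤ t := by
  have h1 : t ^ (p - 1) * U x ≤ 1 := by
    have h2 : t ^ (p - 1) ≤ (U x : ℝ≥0∞)⁻¹ := by
      calc t ^ (p - 1) ≤ (sig p U x) ^ (p - 1) := ENNReal.rpow_le_rpow ht (by linarith)
        _ = (U x : ℝ≥0∞)⁻¹ := by
          rw [sig, ← ENNReal.rpow_mul, ← ENNReal.rpow_neg_one]
          congr 1
          have : p - 1 ≠ 0 := by linarith
          field_simp
    calc t ^ (p - 1) * U x ≤ (U x : ℝ≥0∞)⁻¹ * U x := by gcongr
      _ ≤ 1 := ENNReal.inv_mul_le_one _
  have h3 : t ^ p = t * t ^ (p - 1) := by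
    have : t ^ p = t ^ (1 + (p - 1)) := by congr 1; ring
    rw [this, ENNReal.rpow_add_of_nonneg _ _ zero_le_one (by linarith), ENNReal.rpow_one]
  calc t ^ p * U x = t * (t ^ (p - 1) * U x) := by rw [h3, mul_assoc]
    _ ≤ t * 1 := by gcongr
    _ = t := mul_one t

/-- bumps with small norm where the dual weight has large mass -/
theorem exists_bump_lt {p : ℝ} (hp : 1 < p) {U : ℝ → ℝ≥0} (hU : IsWeight U) {O : Set ℝ}
    (hO : IsOpen O) {T0 : ℝ≥0} (_hT00 : 0 < T0) (hlt : (T0 : ℝ≥0∞) < ∫⁻ x in O, sig p U x) :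
    ∃ φ : ℝ → ℝ, (∀ x, 0 ≤ φ x) ∧ (∃ L : ℝ≥0, LipschitzWith L φ) ∧ HasCompactSupport φ ∧
      (∀ x, φ x ≠ 0 → x ∈ O) ∧ ∫ x, φ x = 1 ∧
      nrm p U (fun x => (φ x : ℂ)) ≤ (T0 : ℝ≥0∞) ^ (1 - p) := by
  have hp0 : 0 < p := by linarith
  obtain ⟨F, hFc, hFO, hFU, hFm⟩ := hO.exists_iUnion_isClosed
  set K : ℕ → Set ℝ := fun n => F n ∩ Icc (-(n : ℝ)) n with hK
  have hKm : ∀ n, MeasurableSet (K n) := fun n => (hFc n).measurableSet.inter measurableSet_Icc
  have hKc : ∀ n, IsCompact (K n) := fun n => isCompact_Icc.inter_left (hFc n)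
  have hKO : ∀ n, K n ⊆ O := fun n => inter_subset_left.trans (hFO n)
  have hKmono : Monotone K := fun m n hmn =>
    inter_subset_inter (hFm hmn) (Icc_subset_Icc (by
      have : (m : ℝ) ≤ n := by exact_mod_cast hmn
      linarith) (by exact_mod_cast hmn))
  set τ : ℕ → ℝ → ℝ≥0∞ := fun n => indicator (K n) (fun x => min (sig p U x) n) with hτ
  have hτm : ∀ n, Measurable (τ n) := fun n =>
    ((sig_meas hU.meas).min measurable_const).indicator (hKm n)
  have hτmono : Monotone τ := by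
    intro m n hmn x
    by_cases hx : x ∈ K m
    · simp only [hτ]
      rw [indicator_of_mem hx, indicator_of_mem (hKmono hmn hx)]
      exact min_le_min_left _ (by exact_mod_cast hmn)
    · simp only [hτ]
      rw [indicator_of_notMem hx]; exact zero_le
  have hτsup : ∀ x, ⨆ n, τ n x = indicator O (sig p U) x := by
    intro x
    by_cases hx : x ∈ O
    · rw [indicator_of_mem hx]
      refine le_antisymm (iSup_le fun n => ?_) ?_
      · by_cases hx' : x ∈ K n
        · simp only [hτ]; rw [indicator_of_mem hx']; exact min_le_left _ _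
        · simp only [hτ]; rw [indicator_of_notMem hx']; exact zero_le
      · rw [← hFU] at hx
        obtain ⟨n0, hn0⟩ := mem_iUnion.1 hx
        obtain ⟨n1, hn1⟩ := exists_nat_ge |x|
        refine le_of_forall_lt fun c hc => ?_
        obtain ⟨n2, hn2⟩ := ENNReal.exists_nat_gt (ne_top_of_lt hc)
        set n := max (max n0 n1) n2
        have hxK : x ∈ K n := by
          refine ⟨hFm ((le_max_left n0 n1).trans (le_max_left _ _)) hn0, ?_⟩
          have h1 : (n1 : ℝ) ≤ n := by
            exact_mod_cast (le_max_right n0 n1).trans (le_max_left _ _)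
          exact abs_le.1 (hn1.trans h1)
        have h2 : c < τ n x := by
          simp only [hτ]
          rw [indicator_of_mem hxK]
          refine lt_min hc (hn2.trans_le ?_)
          exact_mod_cast le_max_right _ _
        exact h2.trans_le (le_iSup (fun n => τ n x) n)
    · rw [indicator_of_notMem hx]
      refine le_antisymm (iSup_le fun n => ?_) zero_le
      simp only [hτ]
      rw [indicator_of_notMem (fun h => hx (hKO n h))]
  have hsupT : ⨆ n, ∫⁻ x, τ n x = ∫⁻ x in O, sig p U x := by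
    rw [← lintegral_iSup hτm hτmono]
    simp_rw [hτsup]
    rw [lintegral_indicator hO.measurableSet]
  obtain ⟨n, hn⟩ : ∃ n, (T0 : ℝ≥0∞) < ∫⁻ x, τ n x := by
    by_contra hcon
    push Not at hcon
    have := iSup_le hcon
    rw [hsupT] at this
    exact absurd hlt (not_lt.2 this)
  have hτb : ∀ x, τ n x ≤ n := by
    intro x
    by_cases hx : x ∈ K n
    · simp only [hτ]; rw [indicator_of_mem hx]; exact min_le_right _ _
    · simp only [hτ]; rw [indicator_of_notMem hx]; exact zero_le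
  have hτs : ∀ x, τ n x ≤ sig p U x := by
    intro x
    by_cases hx : x ∈ K n
    · simp only [hτ]; rw [indicator_of_mem hx]; exact min_le_left _ _
    · simp only [hτ]; rw [indicator_of_notMem hx]; exact zero_le
  have hτ0 : ∀ x, x ∉ K n → τ n x = 0 := by
    intro x hx
    simp only [hτ]; rw [indicator_of_notMem hx]
  set T := ∫⁻ x, τ n x with hT
  have hTfin : T ≠ ∞ := by
    have : T ≤ ∫⁻ x, indicator (K n) (fun _ => (n : ℝ≥0∞)) x := by
      refine lintegral_mono fun x => ?_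
      by_cases hx : x ∈ K n
      · rw [indicator_of_mem hx]; exact hτb x
      · rw [hτ0 x hx]; exact zero_le
    rw [lintegral_indicator_const (hKm n)] at this
    refine ne_top_of_le_ne_top ?_ this
    exact ENNReal.mul_ne_top (ENNReal.natCast_ne_top n) (hKc n).measure_lt_top.ne
  have hTpos : 0 < T := lt_of_le_of_lt zero_le hn
  -- the real function
  set t : ℝ → ℝ := fun x => (τ n x).toReal with ht
  have htm : Measurable t := (hτm n).ennreal_toReal
  have hτfin : ∀ x, τ n x ≠ ∞ := fun x => ne_top_of_le_ne_top (ENNReal.natCast_ne_top n) (hτb x)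
  have ht0 : ∀ x, 0 ≤ t x := fun x => ENNReal.toReal_nonneg
  have htb : ∀ x, t x ≤ n := fun x => by
    have := ENNReal.toReal_mono (ENNReal.natCast_ne_top n) (hτb x)
    simpa using this
  have hti : Integrable t := by
    refine integrable_toReal_of_lintegral_ne_top (hτm n).aemeasurable hTfin
  have htI : ∫ x, t x = T.toReal := by
    rw [integral_toReal (hτm n).aemeasurable (Eventually.of_forall fun x => (hτfin x).lt_top)]
  have hTr : 0 < T.toReal := ENNReal.toReal_pos hTpos.ne' hTfin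
  -- the mollifiers
  set β : ℕ → ContDiffBump (0 : ℝ) := fun k =>
    ⟨1 / (2 * ((k : ℝ) + 1)), 1 / ((k : ℝ) + 1), by positivity, by
      rw [div_lt_div_iff_of_pos_left one_pos (by positivity) (by positivity)]
      have : (0:ℝ) < (k : ℝ) + 1 := by positivity
      linarith⟩ with hβ
  set ψ : ℕ → ℝ → ℝ := fun k => (β k).normed volume ⋆[ContinuousLinearMap.lsmul ℝ ℝ, volume] t
    with hψ
  have hψt : ∀ᵐ x, Tendsto (fun k => ψ k x) atTop (𝓝 (t x)) := by
    refine ContDiffBump.ae_convolution_tendsto_right_of_locallyIntegrable (K := 2) ?_ ?_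
      hti.locallyIntegrable
    · exact tendsto_one_div_add_atTop_nhds_zero_nat
    · refine Eventually.of_forall fun k => ?_
      show 1 / ((k : ℝ) + 1) ≤ 2 * (1 / (2 * ((k : ℝ) + 1)))
      rw [show 2 * (1 / (2 * ((k : ℝ) + 1))) = 1 / ((k : ℝ) + 1) by field_simp]
  have hψc : ∀ k, ContDiff ℝ 1 (ψ k) := fun k =>
    ((β k).hasCompactSupport_normed.contDiff_convolution_left _ (β k).contDiff_normed
      hti.locallyIntegrable)
  have hψI : ∀ k, ∫ x, ψ k x = T.toReal := by
    intro k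
    have := integral_convolution (μ := (volume : Measure ℝ)) (ν := (volume : Measure ℝ))
      (ContinuousLinearMap.lsmul ℝ ℝ) ((β k).integrable_normed) hti
    rw [(β k).integral_normed, htI] at this
    simpa using this
  have hψ0 : ∀ k x, 0 ≤ ψ k x := by
    intro k x
    simp only [hψ]
    rw [convolution_def]
    refine integral_nonneg fun y => ?_
    simp only [ContinuousLinearMap.lsmul_apply, smul_eq_mul]
    exact mul_nonneg ((β k).nonneg_normed _) (ht0 _)
  have hψb : ∀ k x, ψ k x ≤ n := by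
    intro k x
    simp only [hψ]
    rw [convolution_def]
    have h1 : ∫ y, ((ContinuousLinearMap.lsmul ℝ ℝ) ((β k).normed volume y)) (t (x - y))
        ≤ ∫ y, (β k).normed volume y * n := by
      refine integral_mono_of_nonneg (Eventually.of_forall fun y => ?_)
        ((β k).integrable_normed.mul_const _) (Eventually.of_forall fun y => ?_)
      · simp only [ContinuousLinearMap.lsmul_apply, smul_eq_mul]
        exact mul_nonneg ((β k).nonneg_normed _) (ht0 _)
      · simp only [ContinuousLinearMap.lsmul_apply, smul_eq_mul]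
        exact mul_le_mul_of_nonneg_left (htb _) ((β k).nonneg_normed _)
    rw [integral_mul_const, (β k).integral_normed, one_mul] at h1
    exact h1
  obtain ⟨δ, hδ, hδO⟩ := (hKc n).exists_cthickening_subset_open hO (hKO n)
  have hψs : ∀ k x, ψ k x ≠ 0 → ∃ z ∈ K n, dist x z < 1 / ((k : ℝ) + 1) := by
    intro k x hx
    have h1 : x ∈ Function.support (ψ k) := hx
    have h2 := support_convolution_subset (ContinuousLinearMap.lsmul ℝ ℝ)
      (μ := (volume : Measure ℝ)) (f := (β k).normed volume) (g := t) h1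
    obtain ⟨u, hu, z, hz, huz⟩ := Set.mem_add.1 h2
    rw [(β k).support_normed_eq] at hu
    refine ⟨z, ?_, ?_⟩
    · by_contra hzK
      apply hz
      simp only [ht]
      rw [hτ0 z hzK]; rfl
    · rw [← huz, dist_eq_norm, add_sub_cancel_right]
      rw [Metric.mem_ball, dist_zero_right] at hu
      exact hu
  -- convergence of the norms
  obtain ⟨R, hR⟩ : ∃ R : ℝ, ∀ z ∈ K n, |z| ≤ R := ⟨n, fun z hz => abs_le.2 hz.2⟩
  have hψR : ∀ k x, x ∉ Icc (-(R + 1)) (R + 1) → ψ k x = 0 := by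
    intro k x hx
    by_contra hne
    obtain ⟨z, hz, hd⟩ := hψs k x hne
    apply hx
    have h1 : (1:ℝ) / ((k : ℝ) + 1) ≤ 1 := by
      rw [div_le_one (by positivity)]; linarith [(Nat.cast_nonneg k : (0:ℝ) ≤ k)]
    rw [Real.dist_eq] at hd
    have h2 : |x| ≤ |x - z| + |z| := by
      have := abs_add_le (x - z) z; rwa [sub_add_cancel] at this
    exact abs_le.1 (by linarith [hR z hz])
  have hlim : Tendsto (fun k => ∫⁻ x, ENNReal.ofReal (ψ k x) ^ p * U x) atTop
      (𝓝 (∫⁻ x, ENNReal.ofReal (t x) ^ p * U x)) := by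
    refine tendsto_lintegral_of_dominated_convergence
      (fun x => indicator (Icc (-(R + 1)) (R + 1)) (fun x => (n : ℝ≥0∞) ^ p * U x) x) ?_ ?_ ?_ ?_
    · intro k
      have h1 := (hψc k).continuous.measurable
      have h2 := hU.meas
      fun_prop
    · intro k
      refine Eventually.of_forall fun x => ?_
      show ENNReal.ofReal (ψ k x) ^ p * (U x : ℝ≥0∞)
        ≤ indicator (Icc (-(R + 1)) (R + 1)) (fun x => (n : ℝ≥0∞) ^ p * U x) x
      by_cases hx : x ∈ Icc (-(R + 1)) (R + 1)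
      · rw [indicator_of_mem hx]
        gcongr
        calc ENNReal.ofReal (ψ k x) ≤ ENNReal.ofReal n := ENNReal.ofReal_le_ofReal (hψb k x)
          _ = n := ENNReal.ofReal_natCast n
      · rw [hψR k x hx]
        simp [hp0]
    · rw [lintegral_indicator measurableSet_Icc, lintegral_const_mul _ (by
        have h2 := hU.meas
        fun_prop)]
      exact ENNReal.mul_ne_top (ENNReal.rpow_ne_top_of_nonneg hp0.le
        (ENNReal.natCast_ne_top n)) (hU.loc (R + 1)).ne
    · filter_upwards [hψt] with x hx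
      refine ENNReal.Tendsto.mul_const ?_ (Or.inr ENNReal.coe_ne_top)
      exact (ENNReal.continuous_rpow_const.tendsto _).comp
        ((ENNReal.continuous_ofReal.tendsto _).comp hx)
  have hle : ∫⁻ x, ENNReal.ofReal (t x) ^ p * U x ≤ T := by
    refine lintegral_mono fun x => ?_
    simp only [ht]
    rw [ENNReal.ofReal_toReal (hτfin x)]
    exact pow_mul_le hp (hτs x)
  -- choose `k`
  set η : ℝ≥0∞ := (T0 : ℝ≥0∞) ^ (1 - p) with hη
  have hTη : T ^ (1 - p) < η := by
    have e : ∀ u : ℝ≥0∞, u ^ (1 - p) = (u ^ (p - 1))⁻¹ := fun u => by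
      rw [← ENNReal.rpow_neg]; congr 1; ring
    rw [hη, e, e]
    exact ENNReal.inv_lt_inv.2 (ENNReal.rpow_lt_rpow hn (by linarith))
  have hTp : T < η * T ^ p := by
    have h1 : T = T ^ (1 - p) * T ^ p := by
      rw [← ENNReal.rpow_add _ _ hTpos.ne' hTfin]
      simp
    have h2 : T ^ p ≠ 0 := by
      simp [ENNReal.rpow_eq_zero_iff, hTpos.ne', hTfin]
    have h3 : T ^ p ≠ ∞ := ENNReal.rpow_ne_top_of_nonneg hp0.le hTfin
    calc T = T ^ (1 - p) * T ^ p := h1
      _ < η * T ^ p := (ENNReal.mul_lt_mul_iff_left h2 h3).2 hTη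
  have hev1 : ∀ᶠ k in atTop, ∫⁻ x, ENNReal.ofReal (ψ k x) ^ p * U x < η * T ^ p :=
    hlim.eventually (gt_mem_nhds (lt_of_le_of_lt hle hTp))
  have hev2 : ∀ᶠ k : ℕ in atTop, 1 / ((k : ℝ) + 1) < δ :=
    tendsto_one_div_add_atTop_nhds_zero_nat.eventually (gt_mem_nhds hδ)
  obtain ⟨k, hk1, hk2⟩ := (hev1.and hev2).exists
  have hcs : HasCompactSupport (fun x => (T.toReal)⁻¹ * ψ k x) := by
    refine HasCompactSupport.intro (isCompact_Icc (a := -(R + 1)) (b := R + 1)) fun x hx => ?_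
    rw [hψR k x hx, mul_zero]
  refine ⟨fun x => (T.toReal)⁻¹ * ψ k x, fun x => by
    have := hψ0 k x
    positivity, ?_, hcs, ?_, ?_, ?_⟩
  · exact ContDiff.lipschitzWith_of_hasCompactSupport hcs (contDiff_const.mul (hψc k))
      (by norm_num)
  · intro x hx
    have hx' : ψ k x ≠ 0 := fun h => hx (by simp only [h, mul_zero])
    obtain ⟨z, hz, hd⟩ := hψs k x hx'
    apply hδO
    exact Metric.mem_cthickening_of_dist_le x z δ (K n) hz (hd.le.trans hk2.le)
  · rw [integral_const_mul, hψI, inv_mul_cancel₀ hTr.ne']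
  · have e : nrm p U (fun x => (((T.toReal)⁻¹ * ψ k x : ℝ) : ℂ))
        = T⁻¹ ^ p * ∫⁻ x, ENNReal.ofReal (ψ k x) ^ p * U x := by
      rw [nrm, ← lintegral_const_mul _ (by
        have h1 := (hψc k).continuous.measurable
        have h2 := hU.meas
        fun_prop)]
      refine lintegral_congr fun x => ?_
      have h1 : ‖(((T.toReal)⁻¹ * ψ k x : ℝ) : ℂ)‖ₑ = T⁻¹ * ENNReal.ofReal (ψ k x) := by
        rw [← ofReal_norm, Complex.norm_real, Real.norm_eq_abs, abs_of_nonneg (by
          have := hψ0 k x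
          positivity), ENNReal.ofReal_mul (by positivity), ENNReal.ofReal_inv_of_pos hTr,
          ENNReal.ofReal_toReal hTfin]
      rw [h1, ENNReal.mul_rpow_of_nonneg _ _ hp0.le]
      ring
    rw [e, ENNReal.inv_rpow]
    have h2 : T ^ p ≠ 0 := by
      simp [ENNReal.rpow_eq_zero_iff, hTpos.ne', hTfin]
    have h3 : T ^ p ≠ ∞ := ENNReal.rpow_ne_top_of_nonneg hp0.le hTfin
    calc (T ^ p)⁻¹ * ∫⁻ x, ENNReal.ofReal (ψ k x) ^ p * U x
        ≤ (T ^ p)⁻¹ * (η * T ^ p) := by gcongr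
      _ = η * (T ^ p * (T ^ p)⁻¹) := by ring
      _ = η := by rw [ENNReal.mul_inv_cancel h2 h3, mul_one]

/-- bumps concentrated where the dual weight is not integrable -/
theorem exists_bump {p : ℝ} (hp : 1 < p) {U : ℝ → ℝ≥0} (hU : IsWeight U) {O : Set ℝ}
    (hO : IsOpen O) (hinf : ∫⁻ x in O, sig p U x = ∞) (η : ℝ≥0∞) (hη : 0 < η) :
    ∃ φ : ℝ → ℝ, (∀ x, 0 ≤ φ x) ∧ (∃ L : ℝ≥0, LipschitzWith L φ) ∧ HasCompactSupport φ ∧
      (∀ x, φ x ≠ 0 → x ∈ O) ∧ ∫ x, φ x = 1 ∧ nrm p U (fun x => (φ x : ℂ)) ≤ η := by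
  obtain ⟨T0, hT0⟩ : ∃ T0 : ℝ≥0, 1 ≤ T0 ∧ (T0 : ℝ≥0∞) ^ (1 - p) < η := by
    have h1 : Tendsto (fun t : ℝ≥0∞ => t ^ (1 - p)) (𝓝 ∞) (𝓝 0) := by
      have := (ENNReal.continuous_rpow_const (y := 1 - p)).tendsto ∞
      rwa [ENNReal.top_rpow_of_neg (by linarith)] at this
    have h2 := h1.eventually (gt_mem_nhds hη)
    have h3 : ∀ᶠ t : ℝ≥0∞ in 𝓝 ∞, t ^ (1 - p) < η ∧ 1 < t :=
      h2.and (lt_mem_nhds ENNReal.one_lt_top)
    obtain ⟨r, hr⟩ := (ENNReal.nhds_top_basis.eventually_iff.1 h3)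
    obtain ⟨hr1, hr2⟩ := hr
    obtain ⟨q, hq1, hq2⟩ := exists_between hr1
    refine ⟨q.toNNReal, ?_, ?_⟩
    · have := (hr2 hq1).2
      rw [← ENNReal.coe_le_coe, ENNReal.coe_toNNReal hq2.ne]
      exact_mod_cast this.le
    · rw [ENNReal.coe_toNNReal hq2.ne]
      exact (hr2 hq1).1
  obtain ⟨φ, h1, h2, h3, h4, h5, h6⟩ := exists_bump_lt hp hU hO
    (lt_of_lt_of_le zero_lt_one hT0.1) (by rw [hinf]; exact ENNReal.coe_lt_top)
  exact ⟨φ, h1, h2, h3, h4, h5, h6.trans hT0.2.le⟩

end Pool.Agent.N246.MZ
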