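import Pool.Agent.N246.MZ.CaseC

set_option autoImplicit false
open MeasureTheory Set Filter Topology
open scoped ENNReal NNReal

namespace Pool.Agent.N246.MZ

variable {p : ℝ} {U : ℝ → ℝ≥0}

/-- a standard bump supported in the interval of radius one about `c` -/
theorem std_bump (c : ℝ) : ∃ φ : ℝ → ℝ, (∀ x, 0 ≤ φ x) ∧ (∃ L : ℝ≥0, LipschitzWith L φ) ∧
    HasCompactSupport φ ∧ (∀ x, φ x ≠ 0 → |x - c| < 1) ∧ ∫ x, φ x = 1 := by
  set β : ContDiffBump c := ⟨1 / 2, 1, by norm_num, by norm_num⟩ with hβ
  refine ⟨β.normed volume, fun x => β.nonneg_normed x, ?_, β.hasCompactSupport_normed, ?_,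
    β.integral_normed⟩
  · exact ContDiff.lipschitzWith_of_hasCompactSupport β.hasCompactSupport_normed
      (β.contDiff_normed (n := 1)) (by norm_num)
  · intro x hx
    have h1 : x ∈ Function.support (β.normed volume) := hx
    rw [β.support_normed_eq] at h1
    rw [Metric.mem_ball, Real.dist_eq] at h1
    exact h1

/-- bounded functions of compact support have finite norm -/
theorem nrm_finite (hp : 0 < p) (hU : IsWeight U) {φ : ℝ → ℂ} {B R : ℝ} (hB : ∀ x, ‖φ x‖ ≤ B)
    (hR : ∀ x, x ∉ Icc (-R) R → φ x = 0) : nrm p U φ < ∞ := by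
  have h1 : nrm p U φ ≤ ∫⁻ x, indicator (Icc (-R) R) (fun x => ENNReal.ofReal B ^ p * U x) x := by
    refine lintegral_mono fun x => ?_
    by_cases hx : x ∈ Icc (-R) R
    · rw [indicator_of_mem hx]
      show ‖φ x‖ₑ ^ p * (U x : ℝ≥0∞) ≤ ENNReal.ofReal B ^ p * U x
      gcongr
      rw [← ofReal_norm]
      exact ENNReal.ofReal_le_ofReal (hB x)
    · rw [indicator_of_notMem hx, hR x hx]
      simp [hp]
  refine lt_of_le_of_lt h1 ?_
  have h2 := hU.meas
  rw [lintegral_indicator measurableSet_Icc, lintegral_const_mul _ (by fun_prop)]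
  exact ENNReal.mul_lt_top (ENNReal.rpow_lt_top_of_nonneg hp.le ENNReal.ofReal_ne_top)
    (hU.loc R)

theorem nrm_bump_finite (hp : 0 < p) (hU : IsWeight U) {φ : ℝ → ℝ}
    (h1 : ∃ L : ℝ≥0, LipschitzWith L φ) (h2 : HasCompactSupport φ) :
    nrm p U (fun x => (φ x : ℂ)) < ∞ := by
  obtain ⟨L, hL⟩ := h1
  obtain ⟨B, hB⟩ := h2.exists_bound_of_continuous hL.continuous
  obtain ⟨R, hR⟩ := h2.isCompact.isBounded.subset_closedBall 0
  refine nrm_finite hp hU (B := B) (R := R) (fun x => ?_) (fun x hx => ?_)
  · rw [Complex.norm_real]; exact hB x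
  · have : φ x = 0 := by
      by_contra hne
      apply hx
      have := hR (subset_tsupport _ hne)
      rw [Metric.mem_closedBall, dist_zero_right, Real.norm_eq_abs] at this
      exact abs_le.1 this
    rw [this, Complex.ofReal_zero]

theorem norm_sub_I_ge (x : ℝ) : 1 ≤ ‖(x : ℂ) - Complex.I‖ := by
  have := Complex.abs_im_le_norm ((x : ℂ) - Complex.I)
  simpa using this

theorem norm_sub_I_ge' (x : ℝ) : |x| ≤ ‖(x : ℂ) - Complex.I‖ := by
  have := Complex.abs_re_le_norm ((x : ℂ) - Complex.I)
  simpa using this

theorem x_ne_I (x : ℝ) : (x : ℂ) - Complex.I ≠ 0 := by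
  intro h
  have := norm_sub_I_ge x
  rw [h, norm_zero] at this
  linarith

/-- the decay of the weight -/
theorem decay (hp : 1 < p) (hU : IsWeight U) (hA : Admissible p U) :
    ∫⁻ x in {x : ℝ | 4 < |x|}, ENNReal.ofReal (1 / x ^ 2) ^ p * U x < ∞ := by
  have hp0 : 0 < p := by linarith
  obtain ⟨C, hC⟩ := hA
  obtain ⟨ψ, h0, hL, hcs, hs, hI⟩ := std_bump 0
  obtain ⟨L, hL⟩ := hL
  set ψc : ℝ → ℂ := fun x => (ψ x : ℂ) with hψc
  have hψi : Integrable ψc := integrable_of_bump ⟨L, hL⟩ hcs
  have hψ1 : ∫ x, ψc x = 1 := by
    simp only [hψc]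
    rw [integral_complex_ofReal, hI]; simp
  set a : ℝ → ℂ := fun y => ψc (y - 1) with ha
  set b : ℝ → ℂ := fun y => ψc (y + 1) with hb
  have hai : Integrable a := hψi.comp_sub_right 1
  have hbi : Integrable b := hψi.comp_add_right 1
  have hLa : LipschitzWith L a := by
    refine LipschitzWith.of_dist_le_mul fun x y => ?_
    have := (lip_ofReal hL).dist_le_mul (x - 1) (y - 1)
    rwa [dist_sub_right] at this
  have hLb : LipschitzWith L b := by
    refine LipschitzWith.of_dist_le_mul fun x y => ?_
    have := (lip_ofReal hL).dist_le_mul (x + 1) (y + 1)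
    rwa [dist_add_right] at this
  have h1 := hC (fun y => a y - 1 * b y) (fun x => lipH a x - 1 * lipH b x)
    (hai.sub (hbi.const_mul 1)) ?_ ?_
  · have hfin : nrm p U (fun y => a y - 1 * b y) < ∞ := by
      refine lt_of_le_of_lt (nrm_sub_le hp hU.meas hai.aestronglyMeasurable.aemeasurable 1) ?_
      have hψb : ∃ B, ∀ x, ‖ψ x‖ ≤ B := hcs.exists_bound_of_continuous hL.continuous
      obtain ⟨B, hB⟩ := hψb
      have fa : nrm p U a < ∞ := by
        refine nrm_finite hp0 hU (B := B) (R := 2) (fun x => ?_) (fun x hx => ?_)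
        · simp only [ha, hψc]; rw [Complex.norm_real]; exact hB _
        · simp only [ha, hψc]
          have : ψ (x - 1) = 0 := by
            by_contra hne
            apply hx
            have h3 := hs _ hne
            rw [sub_zero, abs_lt] at h3
            constructor <;> linarith [h3.1, h3.2]
          rw [this, Complex.ofReal_zero]
      have fb : nrm p U b < ∞ := by
        refine nrm_finite hp0 hU (B := B) (R := 2) (fun x => ?_) (fun x hx => ?_)
        · simp only [hb, hψc]; rw [Complex.norm_real]; exact hB _
        · simp only [hb, hψc]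
          have : ψ (x + 1) = 0 := by
            by_contra hne
            apply hx
            have h3 := hs _ hne
            rw [sub_zero, abs_lt] at h3
            constructor <;> linarith [h3.1, h3.2]
          rw [this, Complex.ofReal_zero]
      have h2p : (2 : ℝ≥0∞) ^ p < ∞ := ENNReal.rpow_lt_top_of_nonneg hp0.le (by norm_num)
      refine ENNReal.mul_lt_top h2p (ENNReal.add_lt_top.2 ⟨fa, ?_⟩)
      exact ENNReal.mul_lt_top (ENNReal.rpow_lt_top_of_nonneg hp0.le enorm_ne_top) fb
    have hfin2 : nrm p U (fun x => lipH a x - 1 * lipH b x) < ∞ :=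
      lt_of_le_of_lt h1 (ENNReal.mul_lt_top ENNReal.coe_lt_top hfin)
    -- lower bound for the transform
    have key : ∀ x : ℝ, 4 < |x| → 1 / x ^ 2 ≤ 8 * ‖lipH a x - 1 * lipH b x‖ := by
      intro x hx
      have hza : ∀ y, |y - x| < 1 → a y = 0 := by
        intro y hy
        simp only [ha, hψc]
        have : ψ (y - 1) = 0 := by
          by_contra hne
          have h3 := hs _ hne
          rw [sub_zero] at h3
          have h4 : |x| ≤ |y - x| + |y - 1| + 1 := by
            have e : x = -(y - x) + (y - 1) + 1 := by ring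
            calc |x| = |-(y - x) + (y - 1) + 1| := by rw [← e]
              _ ≤ |-(y - x) + (y - 1)| + |1| := abs_add_le _ _
              _ ≤ |-(y - x)| + |y - 1| + |1| := by gcongr; exact abs_add_le _ _
              _ = _ := by rw [abs_neg, abs_one]
          linarith
        rw [this, Complex.ofReal_zero]
      have hzb : ∀ y, |y - x| < 1 → b y = 0 := by
        intro y hy
        simp only [hb, hψc]
        have : ψ (y + 1) = 0 := by
          by_contra hne
          have h3 := hs _ hne
          rw [sub_zero] at h3
          have h4 : |x| ≤ |y - x| + |y + 1| + 1 := by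
            have e : x = -(y - x) + (y + 1) + -1 := by ring
            calc |x| = |-(y - x) + (y + 1) + -1| := by rw [← e]
              _ ≤ |-(y - x) + (y + 1)| + |-1| := abs_add_le _ _
              _ ≤ |-(y - x)| + |y + 1| + |-1| := by gcongr; exact abs_add_le _ _
              _ = _ := by rw [abs_neg, abs_neg, abs_one]
          linarith
        rw [this, Complex.ofReal_zero]
      have ea := (lipH_pv hLa hai x).unique (hasPV_of_zero one_pos hza)
      have eb := (lipH_pv hLb hbi x).unique (hasPV_of_zero one_pos hzb)
      have ia : ∫ y, a y / ((x : ℂ) - (y : ℂ)) = ∫ z, ψc z / ((x : ℂ) - (z + 1)) := by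
        rw [← integral_add_right_eq_self (fun y => a y / ((x : ℂ) - (y : ℂ))) 1]
        refine integral_congr_ae (Eventually.of_forall fun z => ?_)
        simp [ha]
      have ib : ∫ y, b y / ((x : ℂ) - (y : ℂ)) = ∫ z, ψc z / ((x : ℂ) - (z - 1)) := by
        rw [← integral_sub_right_eq_self (fun y => b y / ((x : ℂ) - (y : ℂ))) 1]
        refine integral_congr_ae (Eventually.of_forall fun z => ?_)
        simp [hb]
      -- everything is real
      have hsup : ∀ z, ψ z ≠ 0 → |z| < 1 := fun z hz => by
        have := hs z hz; rwa [sub_zero] at this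
      have hri : ∀ t : ℝ, |t| ≤ 1 → Integrable (fun z => ψ z * (1 / (x - (z + t)))) := by
        intro t ht
        have hψr : Integrable ψ := hL.continuous.integrable_of_hasCompactSupport hcs
        refine (hψr.norm.const_mul 1).mono' ?_ (Eventually.of_forall fun z => ?_)
        · exact hψr.aestronglyMeasurable.mul
            (Measurable.aestronglyMeasurable (by fun_prop))
        · by_cases hz : ψ z = 0
          · simp [hz]
          · rw [norm_mul, one_mul]
            refine mul_le_of_le_one_right (norm_nonneg _) ?_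
            have h5 := hsup z hz
            have h6 : 1 ≤ |x - (z + t)| := by
              have h7 : |x| ≤ |x - (z + t)| + |z + t| := by
                have := abs_add_le (x - (z + t)) (z + t); rwa [sub_add_cancel] at this
              have h8 : |z + t| ≤ |z| + |t| := abs_add_le _ _
              linarith
            rw [norm_div, norm_one, Real.norm_eq_abs, div_le_one (by linarith)]
            exact h6
      have h9 : lipH a x - 1 * lipH b x = (((1 / Real.pi) *
          ∫ z, ψ z * (2 / ((x - z) ^ 2 - 1)) : ℝ) : ℂ) := by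
        rw [ea, eb, ia, ib, one_mul, ← mul_sub]
        have e1 : ∫ z, ψc z / ((x : ℂ) - (z + 1)) = ((∫ z, ψ z * (1 / (x - (z + 1))) : ℝ) : ℂ) := by
          rw [← integral_complex_ofReal]
          refine integral_congr_ae (Eventually.of_forall fun z => ?_)
          simp only [hψc]
          push_cast
          ring
        have e2 : ∫ z, ψc z / ((x : ℂ) - (z - 1))
            = ((∫ z, ψ z * (1 / (x - (z + (-1)))) : ℝ) : ℂ) := by
          rw [← integral_complex_ofReal]
          refine integral_congr_ae (Eventually.of_forall fun z => ?_)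
          simp only [hψc]
          push_cast
          ring
        rw [e1, e2, ← Complex.ofReal_sub, ← integral_sub (hri 1 (by simp)) (hri (-1) (by simp))]
        push_cast
        congr 2
        refine integral_congr_ae (Eventually.of_forall fun z => ?_)
        simp only
        by_cases hz : ψ z = 0
        · simp [hz]
        · have h5 := hsup z hz
          rw [abs_lt] at h5
          have h10 : x - (z + 1) ≠ 0 := by
            intro h
            have : x = z + 1 := by linarith
            rw [this, lt_abs] at hx
            rcases hx with hx | hx <;> linarith [h5.1, h5.2]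
          have h11 : x - (z + -1) ≠ 0 := by
            intro h
            have : x = z + -1 := by linarith
            rw [this, lt_abs] at hx
            rcases hx with hx | hx <;> linarith [h5.1, h5.2]
          have h12 : (x - z) ^ 2 - 1 ≠ 0 := by
            have : (x - z) ^ 2 - 1 = (x - (z + 1)) * (x - (z + -1)) := by ring
            rw [this]; exact mul_ne_zero h10 h11
          field_simp
          ring
      rw [h9, Complex.norm_real, Real.norm_eq_abs]
      have h13 : 1 / (2 * x ^ 2) ≤ ∫ z, ψ z * (2 / ((x - z) ^ 2 - 1)) := by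
        have hψr : Integrable ψ := hL.continuous.integrable_of_hasCompactSupport hcs
        have h14 : ∫ z, ψ z * (1 / (2 * x ^ 2)) = 1 / (2 * x ^ 2) := by
          rw [integral_mul_const, hI, one_mul]
        rw [← h14]
        refine integral_mono (hψr.mul_const _) ?_ fun z => ?_
        · refine (hψr.norm.const_mul 2).mono' ?_ (Eventually.of_forall fun z => ?_)
          · exact hψr.aestronglyMeasurable.mul
              (Measurable.aestronglyMeasurable (by fun_prop))
          · by_cases hz : ψ z = 0
            · simp [hz]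
            · have h5 := hsup z hz
              have h7 : |x| ≤ |x - z| + |z| := by
                have := abs_add_le (x - z) z; rwa [sub_add_cancel] at this
              have h15 : 3 ≤ |x - z| := by linarith
              have h16 : 9 ≤ (x - z) ^ 2 := by rw [← sq_abs]; nlinarith
              rw [norm_mul, norm_div, Real.norm_eq_abs, Real.norm_eq_abs 2,
                abs_of_pos (by norm_num : (0:ℝ) < 2), Real.norm_eq_abs (_ - 1),
                abs_of_pos (by linarith : 0 < (x - z) ^ 2 - 1), mul_comm]
              refine mul_le_mul_of_nonneg_right ?_ (abs_nonneg _)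
              rw [div_le_iff₀ (by linarith)]
              linarith
        · by_cases hz : ψ z = 0
          · simp [hz]
          · have h5 := hsup z hz
            have h7 : |x| ≤ |x - z| + |z| := by
              have := abs_add_le (x - z) z; rwa [sub_add_cancel] at this
            have h15 : 3 ≤ |x - z| := by linarith
            have h16 : 9 ≤ (x - z) ^ 2 := by rw [← sq_abs]; nlinarith
            refine mul_le_mul_of_nonneg_left ?_ (h0 z)
            have h17 : |x - z| ≤ |x| + |z| := abs_sub _ _
            have h18 : (x - z) ^ 2 ≤ 4 * x ^ 2 := by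
              rw [← sq_abs (x - z), ← sq_abs x]
              nlinarith [abs_nonneg (x - z), abs_nonneg x]
            rw [div_le_div_iff₀ (by nlinarith [sq_abs x, abs_nonneg x]) (by linarith)]
            nlinarith
      have hx2 : 0 < x ^ 2 := by
        rw [← sq_abs]; nlinarith
      have hpi4 : Real.pi ≤ 4 := Real.pi_le_four
      have h20 : 1 / (2 * x ^ 2) * (1 / 4) ≤ (1 / Real.pi) *
          ∫ z, ψ z * (2 / ((x - z) ^ 2 - 1)) := by
        rw [mul_comm]
        refine mul_le_mul (one_div_le_one_div_of_le Real.pi_pos hpi4) h13 (by positivity)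
          (by positivity)
      have h21 : (1 / Real.pi) * ∫ z, ψ z * (2 / ((x - z) ^ 2 - 1))
          ≤ |(1 / Real.pi) * ∫ z, ψ z * (2 / ((x - z) ^ 2 - 1))| := le_abs_self _
      have h22 : 1 / x ^ 2 = 8 * (1 / (2 * x ^ 2) * (1 / 4)) := by
        field_simp
        norm_num
      rw [h22]
      linarith
    have hms : MeasurableSet {x : ℝ | 4 < |x|} := measurableSet_lt measurable_const (by fun_prop)
    calc ∫⁻ x in {x : ℝ | 4 < |x|}, ENNReal.ofReal (1 / x ^ 2) ^ p * U x
        ≤ ∫⁻ x in {x : ℝ | 4 < |x|}, 8 ^ p * (‖lipH a x - 1 * lipH b x‖ₑ ^ p * U x) := by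
          refine setLIntegral_mono' hms fun x hx => ?_
          have h23 : ENNReal.ofReal (1 / x ^ 2) ≤ 8 * ‖lipH a x - 1 * lipH b x‖ₑ := by
            rw [← ofReal_norm, show (8 : ℝ≥0∞) = ENNReal.ofReal 8 by simp,
              ← ENNReal.ofReal_mul (by norm_num)]
            exact ENNReal.ofReal_le_ofReal (key x hx)
          calc ENNReal.ofReal (1 / x ^ 2) ^ p * (U x : ℝ≥0∞)
              ≤ (8 * ‖lipH a x - 1 * lipH b x‖ₑ) ^ p * U x := by gcongr
            _ = 8 ^ p * (‖lipH a x - 1 * lipH b x‖ₑ ^ p * U x) := by
              rw [ENNReal.mul_rpow_of_nonneg _ _ hp0.le, mul_assoc]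
      _ ≤ ∫⁻ x, 8 ^ p * (‖lipH a x - 1 * lipH b x‖ₑ ^ p * U x) := setLIntegral_le_lintegral _ _
      _ = 8 ^ p * nrm p U (fun x => lipH a x - 1 * lipH b x) :=
          lintegral_const_mul' _ _ (ENNReal.rpow_ne_top_of_nonneg hp0.le (by norm_num))
      _ < ∞ := ENNReal.mul_lt_top (ENNReal.rpow_lt_top_of_nonneg hp0.le (by norm_num)) hfin2
  · rw [integral_sub hai (hbi.const_mul 1), integral_const_mul, one_mul]
    have e1 : ∫ y, a y = 1 := by
      simp only [ha]; rw [integral_sub_right_eq_self, hψ1]
    have e2 : ∫ y, b y = 1 := by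
      simp only [hb]; rw [integral_add_right_eq_self, hψ1]
    rw [e1, e2, sub_self]
  · exact Eventually.of_forall fun x =>
      (lipH_pv hLa hai x).sub_smul hai hbi (lipH_pv hLb hbi x) 1

end Pool.Agent.N246.MZ
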