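import Pool.Agent.N246.MZ.CaseA

set_option autoImplicit false
open MeasureTheory Set Filter Topology
open scoped ENNReal NNReal

namespace Pool.Agent.N246.MZ

variable {p : ℝ} {U : ℝ → ℝ≥0}

/-- Hölder's inequality -/
theorem holder (hp : 1 < p) (hU : Measurable U) (hS : ∫⁻ x, sig p U x < ∞) {f : ℝ → ℂ}
    (hf : AEMeasurable f) :
    (∫⁻ x, ‖f x‖ₑ) ^ p ≤ nrm p U f * (∫⁻ x, sig p U x) ^ (p - 1) := by
  have hp0 : 0 < p := by linarith
  have hp1 : 0 < p - 1 := by linarith
  have hpq : p.HolderConjugate (p / (p - 1)) := by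
    rw [Real.holderConjugate_iff]
    refine ⟨hp, ?_⟩
    field_simp
    ring
  have hfin : ∀ᵐ x, sig p U x < ∞ := ae_lt_top (sig_meas hU) hS.ne
  have h1 : ∫⁻ x, ‖f x‖ₑ = ∫⁻ x, ((fun x => ‖f x‖ₑ * (U x : ℝ≥0∞) ^ (1 / p)) *
      (fun x => (U x : ℝ≥0∞) ^ (-(1 / p)))) x := by
    refine lintegral_congr_ae ?_
    filter_upwards [hfin] with x hx
    have hne : (U x : ℝ≥0∞) ≠ 0 := by
      intro h0
      rw [sig, h0, ENNReal.zero_rpow_of_neg (by
        rw [neg_lt_zero]; positivity)] at hx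
      exact lt_irrefl _ hx
    show ‖f x‖ₑ = ‖f x‖ₑ * (U x : ℝ≥0∞) ^ (1 / p) * (U x : ℝ≥0∞) ^ (-(1 / p))
    rw [mul_assoc, ← ENNReal.rpow_add _ _ hne ENNReal.coe_ne_top]
    simp
  have h2 := ENNReal.lintegral_mul_le_Lp_mul_Lq volume hpq
    (f := fun x => ‖f x‖ₑ * (U x : ℝ≥0∞) ^ (1 / p)) (g := fun x => (U x : ℝ≥0∞) ^ (-(1 / p)))
    (hf.enorm.mul (by fun_prop)) (by fun_prop)
  rw [← h1] at h2
  have h3 : ∫⁻ x, (‖f x‖ₑ * (U x : ℝ≥0∞) ^ (1 / p)) ^ p = nrm p U f := by
    refine lintegral_congr fun x => ?_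
    rw [ENNReal.mul_rpow_of_nonneg _ _ hp0.le, ← ENNReal.rpow_mul, one_div,
      inv_mul_cancel₀ hp0.ne', ENNReal.rpow_one]
  have h4 : ∫⁻ x, ((U x : ℝ≥0∞) ^ (-(1 / p))) ^ (p / (p - 1)) = ∫⁻ x, sig p U x := by
    refine lintegral_congr fun x => ?_
    rw [sig, ← ENNReal.rpow_mul]
    congr 1
    field_simp
  rw [h3, h4] at h2
  calc (∫⁻ x, ‖f x‖ₑ) ^ p
      ≤ (nrm p U f ^ (1 / p) * (∫⁻ x, sig p U x) ^ (1 / (p / (p - 1)))) ^ p :=
        ENNReal.rpow_le_rpow h2 hp0.le
    _ = nrm p U f * (∫⁻ x, sig p U x) ^ (p - 1) := by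
        rw [ENNReal.mul_rpow_of_nonneg _ _ hp0.le, ← ENNReal.rpow_mul, ← ENNReal.rpow_mul]
        congr 2
        · rw [one_div, inv_mul_cancel₀ hp0.ne', ENNReal.rpow_one]
        · field_simp

theorem strong_of_int (hp : 1 < p) (hU : IsWeight U) (hS : ∫⁻ x, sig p U x < ∞)
    (hA : Admissible p U) : Strong p (divW p Complex.I U) := by
  have hp0 : 0 < p := by linarith
  have hdec := decay hp hU hA
  obtain ⟨C, hC⟩ := hA
  obtain ⟨ψ, h0, hL, hcs, hs, hI⟩ := std_bump 0
  obtain ⟨L, hL⟩ := hL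
  set ψc : ℝ → ℂ := fun x => (ψ x : ℂ) with hψc
  have hψi : Integrable ψc := integrable_of_bump ⟨L, hL⟩ hcs
  have hψr : Integrable ψ := hL.continuous.integrable_of_hasCompactSupport hcs
  have hψ1 : ∫ x, ψc x = 1 := by
    simp only [hψc]
    rw [integral_complex_ofReal, hI]; simp
  have hsup : ∀ z, ψ z ≠ 0 → |z| < 1 := fun z hz => by
    have := hs z hz; rwa [sub_zero] at this
  -- the correction
  set D : ℝ → ℂ := fun x => lipH ψc x - (1 / (Real.pi : ℂ)) * (1 / ((x : ℂ) - Complex.I)) with hD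
  have hDm : AEMeasurable D := by
    refine AEMeasurable.sub (IsHilbert.aemeasurable hψi (Eventually.of_forall fun x =>
      lipH_pv (lip_ofReal hL) hψi x)) ?_
    exact (Measurable.aemeasurable (by fun_prop))
  have hD1 : ∀ x : ℝ, ‖D x‖ ≤ (2 * L + ∫ y, ‖ψc y‖) + 1 := by
    intro x
    refine (norm_sub_le _ _).trans (add_le_add (lipH_bound (lip_ofReal hL) hψi x) ?_)
    rw [norm_mul, norm_inv_pi, norm_div, norm_one]
    have h2 : 1 / ‖(x : ℂ) - Complex.I‖ ≤ 1 := by
      rw [div_le_one (by linarith [norm_sub_I_ge x])]; exact norm_sub_I_ge x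
    calc 1 / Real.pi * (1 / ‖(x : ℂ) - Complex.I‖) ≤ 1 * 1 :=
          mul_le_mul inv_pi_le_one h2 (by positivity) zero_le_one
      _ = 1 := one_mul 1
  have hD2 : ∀ x : ℝ, 4 < |x| → ‖D x‖ ≤ 4 * (1 / x ^ 2) := by
    intro x hx
    have hza : ∀ y, |y - x| < 1 → ψc y = 0 := by
      intro y hy
      have : ψ y = 0 := by
        by_contra hne
        have h3 := hsup y hne
        have h4 : |x| ≤ |y - x| + |y| := by
          have := abs_add_le (-(y - x)) y
          rw [abs_neg] at this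
          rwa [show -(y - x) + y = x by ring] at this
        linarith
      simp only [hψc, this, Complex.ofReal_zero]
    have e := (lipH_pv (lip_ofReal hL) hψi x).unique (hasPV_of_zero one_pos hza)
    have hint1 : Integrable (fun y => ψc y / ((x : ℂ) - (y : ℂ))) := by
      refine (hψi.norm.const_mul 1).mono' ?_ (Eventually.of_forall fun y => ?_)
      · refine hψi.aestronglyMeasurable.mul ?_
        exact (Measurable.inv (by fun_prop)).aestronglyMeasurable
      · rw [norm_div, norm_ofReal_sub, abs_sub_comm]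
        by_cases hy : |y - x| < 1
        · rw [hza y hy]; simp
        · push Not at hy
          rw [one_mul]
          exact div_le_self (norm_nonneg _) hy
    have e2 : ∫ y, ψc y * (1 / ((x : ℂ) - Complex.I)) = 1 / ((x : ℂ) - Complex.I) := by
      rw [integral_mul_const, hψ1, one_mul]
    have e3 : D x = (1 / (Real.pi : ℂ)) * ∫ y, (ψc y / ((x : ℂ) - (y : ℂ))
        - ψc y * (1 / ((x : ℂ) - Complex.I))) := by
      rw [integral_sub hint1 (hψi.mul_const _), e2]
      simp only [hD]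
      rw [e]
      ring
    have hx0 : 0 < |x| := by linarith
    have h2 : ‖∫ y, (ψc y / ((x : ℂ) - (y : ℂ)) - ψc y * (1 / ((x : ℂ) - Complex.I)))‖
        ≤ ∫ y, ψ y * (4 * (1 / x ^ 2)) := by
      refine norm_integral_le_of_norm_le (hψr.mul_const _) ?_
      refine Eventually.of_forall fun y => ?_
      by_cases hy0 : ψ y = 0
      · simp [hψc, hy0]
      · have h1 := hsup y hy0
        have h3 : |x| ≤ |x - y| + |y| := by
          have := abs_add_le (x - y) y; rwa [sub_add_cancel] at this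
        have h4 : |x| / 2 ≤ |x - y| := by linarith
        have h4' : 0 < |x - y| := by linarith
        have hne : (x : ℂ) - y ≠ 0 := by
          rw [← Complex.ofReal_sub]
          have : x - y ≠ 0 := by intro h; rw [h, abs_zero] at h4'; exact lt_irrefl _ h4'
          exact_mod_cast this
        have hxI := x_ne_I x
        have e4 : ψc y / ((x : ℂ) - (y : ℂ)) - ψc y * (1 / ((x : ℂ) - Complex.I))
            = ψc y * (((y : ℂ) - Complex.I) / (((x : ℂ) - y) * ((x : ℂ) - Complex.I))) := by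
          field_simp
          ring
        rw [e4, norm_mul, norm_div, norm_mul, norm_ofReal_sub]
        simp only [hψc]
        rw [Complex.norm_real, Real.norm_eq_abs, abs_of_nonneg (h0 y)]
        refine mul_le_mul_of_nonneg_left ?_ (h0 y)
        have h5 : ‖(y : ℂ) - Complex.I‖ ≤ 2 := by
          calc ‖(y : ℂ) - Complex.I‖ ≤ ‖(y : ℂ)‖ + ‖Complex.I‖ := norm_sub_le _ _
            _ ≤ 1 + 1 := by
              rw [Complex.norm_real, Real.norm_eq_abs, Complex.norm_I]; linarith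
            _ = 2 := by norm_num
        calc ‖(y : ℂ) - Complex.I‖ / (|x - y| * ‖(x : ℂ) - Complex.I‖)
            ≤ 2 / ((|x| / 2) * |x|) := by
              gcongr
              exact norm_sub_I_ge' x
          _ = 4 * (1 / x ^ 2) := by
              rw [← sq_abs x]
              field_simp
              norm_num
    rw [integral_mul_const, hI, one_mul] at h2
    rw [e3, norm_mul, norm_inv_pi]
    calc 1 / Real.pi * _ ≤ 1 * (4 * (1 / x ^ 2)) :=
          mul_le_mul inv_pi_le_one h2 (norm_nonneg _) zero_le_one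
      _ = _ := one_mul _
  have hDfin : nrm p U D < ∞ := by
    set B : ℝ := (2 * L + ∫ y, ‖ψc y‖) + 1 with hB
    have hms : MeasurableSet {x : ℝ | 4 < |x|} := measurableSet_lt measurable_const (by fun_prop)
    have hUm := hU.meas
    have h1 : nrm p U D ≤ ∫⁻ x, (indicator (Icc (-4) 4)
        (fun x => ENNReal.ofReal B ^ p * (U x : ℝ≥0∞)) x +
        indicator {x : ℝ | 4 < |x|} (fun x => 4 ^ p * (ENNReal.ofReal (1 / x ^ 2) ^ p * U x)) x) := by
      refine lintegral_mono fun x => ?_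
      by_cases hx : x ∈ {x : ℝ | 4 < |x|}
      · rw [indicator_of_mem hx]
        refine le_add_left ?_
        have h3 : ‖D x‖ₑ ≤ 4 * ENNReal.ofReal (1 / x ^ 2) := by
          rw [← ofReal_norm, show (4 : ℝ≥0∞) = ENNReal.ofReal 4 by simp,
              ← ENNReal.ofReal_mul (by norm_num)]
          exact ENNReal.ofReal_le_ofReal (hD2 x hx)
        calc ‖D x‖ₑ ^ p * (U x : ℝ≥0∞) ≤ (4 * ENNReal.ofReal (1 / x ^ 2)) ^ p * U x := by gcongr
          _ = _ := by rw [ENNReal.mul_rpow_of_nonneg _ _ hp0.le, mul_assoc]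
      · have hx' : x ∈ Icc (-4 : ℝ) 4 := abs_le.1 (not_lt.1 hx)
        rw [indicator_of_mem hx']
        refine le_add_right ?_
        show ‖D x‖ₑ ^ p * (U x : ℝ≥0∞) ≤ ENNReal.ofReal B ^ p * U x
        gcongr
        rw [← ofReal_norm]
        exact ENNReal.ofReal_le_ofReal (hD1 x)
    refine lt_of_le_of_lt h1 ?_
    rw [lintegral_add_left (by
      refine Measurable.indicator ?_ measurableSet_Icc
      fun_prop), lintegral_indicator measurableSet_Icc, lintegral_indicator hms,
      lintegral_const_mul' _ _ (ENNReal.rpow_ne_top_of_nonneg hp0.le ENNReal.ofReal_ne_top),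
      lintegral_const_mul' _ _ (ENNReal.rpow_ne_top_of_nonneg hp0.le (by norm_num))]
    refine ENNReal.add_lt_top.2 ⟨?_, ?_⟩
    · exact ENNReal.mul_lt_top (ENNReal.rpow_lt_top_of_nonneg hp0.le ENNReal.ofReal_ne_top)
        (hU.loc 4)
    · exact ENNReal.mul_lt_top (ENNReal.rpow_lt_top_of_nonneg hp0.le (by norm_num)) hdec
  have hψfin : nrm p U ψc < ∞ := nrm_bump_finite hp0 hU ⟨L, hL⟩ hcs
  set S := ∫⁻ x, sig p U x with hSdef
  have hSp : S ^ (p - 1) < ∞ := ENNReal.rpow_lt_top_of_nonneg (by linarith) hS.ne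
  set K : ℝ≥0∞ := 2 ^ p * (C * (2 ^ p * (1 + S ^ (p - 1) * nrm p U ψc)) +
    S ^ (p - 1) * nrm p U D) with hK
  have h2p : (2 : ℝ≥0∞) ^ p < ∞ := ENNReal.rpow_lt_top_of_nonneg hp0.le (by norm_num)
  have hKfin : K < ∞ := by
    refine ENNReal.mul_lt_top h2p (ENNReal.add_lt_top.2 ⟨?_, ENNReal.mul_lt_top hSp hDfin⟩)
    refine ENNReal.mul_lt_top ENNReal.coe_lt_top (ENNReal.mul_lt_top h2p ?_)
    exact ENNReal.add_lt_top.2 ⟨ENNReal.one_lt_top, ENNReal.mul_lt_top hSp hψfin⟩
  refine ⟨K.toNNReal, fun h k hh hk => ?_⟩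
  rw [ENNReal.coe_toNNReal hKfin.ne]
  set f : ℝ → ℂ := fun y => h y / ((y : ℂ) - Complex.I) with hf
  have hfi : Integrable f := by
    refine hh.norm.mono' ?_ (Eventually.of_forall fun y => ?_)
    · refine hh.aestronglyMeasurable.mul ?_
      exact (Measurable.inv (by fun_prop)).aestronglyMeasurable
    · simp only [hf]
      rw [norm_div]
      exact div_le_self (norm_nonneg _) (norm_sub_I_ge y)
  have hfh : ∀ y : ℝ, ((y : ℂ) - Complex.I) * f y = h y := by
    intro y
    have := x_ne_I y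
    simp only [hf]
    field_simp
  have hmul_i : Integrable (fun y : ℝ => ((y : ℂ) - Complex.I) * f y) := by
    simp_rw [hfh]; exact hh
  set A : ℂ := ∫ y, f y with hA
  set g : ℝ → ℂ := fun x => (k x + (1 / (Real.pi : ℂ)) * A) / ((x : ℂ) - Complex.I) with hg
  have hgH : IsHilbert f g := by
    filter_upwards [hk] with x hx
    have h1 : HasPV (fun y : ℝ => ((y : ℂ) - Complex.I) * f y) x (k x) := by
      have : (fun y : ℝ => ((y : ℂ) - Complex.I) * f y) = h := funext hfh
      rw [this]; exact hx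
    exact h1.of_mul_sub Complex.I (sub_ne_zero.1 (x_ne_I x)) hfi hmul_i
  have hgm : AEMeasurable g := IsHilbert.aemeasurable hfi hgH
  have hψm : AEMeasurable (lipH ψc) := IsHilbert.aemeasurable hψi (Eventually.of_forall fun x =>
      lipH_pv (lip_ofReal hL) hψi x)
  have hAp : ‖A‖ₑ ^ p ≤ nrm p U f * S ^ (p - 1) := by
    refine le_trans ?_ (holder hp hU.meas hS hfi.aestronglyMeasurable.aemeasurable)
    exact ENNReal.rpow_le_rpow (enorm_integral_le_lintegral_enorm _) hp0.le
  have h1 := hC (fun x => f x - A * ψc x) (fun x => g x - A * lipH ψc x)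
    (hfi.sub (hψi.const_mul A)) (by
      rw [integral_sub hfi (hψi.const_mul A), integral_const_mul, hψ1, mul_one, sub_self]) (by
      filter_upwards [hgH] with x hx
      exact hx.sub_smul hfi hψi (lipH_pv (lip_ofReal hL) hψi x) A)
  have h2 := nrm_sub_le hp hU.meas (φ := ψc) hfi.aestronglyMeasurable.aemeasurable A
  have h3 := nrm_sub_le hp hU.meas (φ := D) (hgm.sub (hψm.const_mul A)) (-A)
  have e1 : (fun x : ℝ => k x / ((x : ℂ) - Complex.I))
      = fun x => (g x - A * lipH ψc x) - (-A) * D x := by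
    funext x
    simp only [hg, hD]
    ring
  rw [← nrm_div hp0, e1]
  have e2 : nrm p (divW p Complex.I U) h = nrm p U f := (nrm_div hp0 Complex.I h).symm
  rw [e2, enorm_neg] at *
  calc nrm p U (fun x => (g x - A * lipH ψc x) - (-A) * D x)
      ≤ 2 ^ p * (nrm p U (fun x => g x - A * lipH ψc x) + ‖A‖ₑ ^ p * nrm p U D) := h3
    _ ≤ 2 ^ p * (C * (2 ^ p * (nrm p U f + (nrm p U f * S ^ (p - 1)) * nrm p U ψc)) +
        (nrm p U f * S ^ (p - 1)) * nrm p U D) := by
        gcongr
        refine h1.trans ?_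
        gcongr
        refine h2.trans ?_
        gcongr
    _ = K * nrm p U f := by
        rw [hK]; ring

end Pool.Agent.N246.MZ
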