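import Pool.Agent.N246.MZ.Core

set_option autoImplicit false
open MeasureTheory Set Filter Topology
open scoped ENNReal NNReal

namespace Pool.Agent.N246.MZ

variable {p : ℝ} {U : ℝ → ℝ≥0}

theorem ae_ne (ζ : ℂ) : ∀ᵐ x : ℝ, (x : ℂ) ≠ ζ := by
  have hz : ∀ᵐ y : ℝ, y ≠ ζ.re := by
    rw [ae_iff]; simp
  filter_upwards [hz] with y hy h
  apply hy
  rw [← h, Complex.ofReal_re]

theorem divW_mul (ζ : ℂ) {x : ℝ} (hx : (x : ℂ) ≠ ζ) :
    ‖(x : ℂ) - ζ‖ₑ ^ p * (divW p ζ U x : ℝ≥0∞) = U x := by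
  have h0 : ‖(x : ℂ) - ζ‖₊ ≠ 0 := by
    rw [ne_eq, nnnorm_eq_zero]; exact sub_ne_zero.2 hx
  have h1 : ‖(x : ℂ) - ζ‖ₑ = (‖(x : ℂ) - ζ‖₊ : ℝ≥0∞) := rfl
  rw [divW, h1, ENNReal.coe_mul, ENNReal.coe_rpow_of_ne_zero h0, ← mul_assoc,
    ← ENNReal.rpow_add _ _ (by exact_mod_cast h0) ENNReal.coe_ne_top]
  simp

theorem divW_meas (ζ : ℂ) (hU : Measurable U) : Measurable (divW p ζ U) := by
  unfold divW
  fun_prop

theorem nrm_div (hp : 0 < p) (ζ : ℂ) (k : ℝ → ℂ) :
    nrm p U (fun x => k x / ((x : ℂ) - ζ)) = nrm p (divW p ζ U) k := by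
  refine lintegral_congr_ae ?_
  filter_upwards [ae_ne ζ] with x hx
  have h0 : (x : ℂ) - ζ ≠ 0 := sub_ne_zero.2 hx
  have h2 : ‖(x : ℂ) - ζ‖ₑ ^ p ≠ 0 := by
    have : ‖(x : ℂ) - ζ‖ₑ ≠ 0 := enorm_ne_zero.2 h0
    simp [ENNReal.rpow_eq_zero_iff, this, hp.not_gt]
  have h3 : ‖(x : ℂ) - ζ‖ₑ ^ p ≠ ∞ := ENNReal.rpow_ne_top_of_nonneg hp.le enorm_ne_top
  have h4 : ‖k x / ((x : ℂ) - ζ)‖ₑ ^ p * ‖(x : ℂ) - ζ‖ₑ ^ p = ‖k x‖ₑ ^ p := by
    rw [← ENNReal.mul_rpow_of_nonneg _ _ hp.le, ← enorm_mul, div_mul_cancel₀ _ h0]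
  rw [← divW_mul (p := p) ζ hx, ← mul_assoc, h4]

theorem nrm_mul (hp : 0 < p) (ζ : ℂ) (g : ℝ → ℂ) :
    nrm p (divW p ζ U) (fun x => ((x : ℂ) - ζ) * g x) = nrm p U g := by
  refine lintegral_congr_ae ?_
  filter_upwards [ae_ne ζ] with x hx
  have h := divW_mul (p := p) (U := U) ζ hx
  calc ‖((x : ℂ) - ζ) * g x‖ₑ ^ p * (divW p ζ U x : ℝ≥0∞)
      = ‖g x‖ₑ ^ p * (‖(x : ℂ) - ζ‖ₑ ^ p * (divW p ζ U x : ℝ≥0∞)) := by
        rw [enorm_mul, ENNReal.mul_rpow_of_nonneg _ _ hp.le]; ring
    _ = ‖g x‖ₑ ^ p * U x := by rw [h]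

theorem ae_ne_abs (c r : ℝ) : ∀ᵐ x : ℝ, |x - c| ≠ r := by
  have h1 : ∀ᵐ y : ℝ, y ≠ c + r := by rw [ae_iff]; simp
  have h2 : ∀ᵐ y : ℝ, y ≠ c - r := by rw [ae_iff]; simp
  filter_upwards [h1, h2] with y hy1 hy2 h
  rcases abs_choice (y - c) with h3 | h3
  · rw [h3] at h; exact hy1 (by linarith)
  · rw [h3] at h; exact hy2 (by linarith)

theorem strong_of_sing (hp : 1 < p) (hU : IsWeight U) (c : ℝ)
    (hinf : ∀ m : ℕ, ∫⁻ x in Metric.ball c (1 / ((m : ℝ) + 1)), sig p U x = ∞)
    (hA : Admissible p U) : Strong p (divW p (c : ℂ) U) := by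
  have hp0 : 0 < p := by linarith
  obtain ⟨C, hC⟩ := hA
  refine ⟨C * 2 ^ p, fun h k hh hk => ?_⟩
  have hb : ∀ m : ℕ, ∃ φ : ℝ → ℝ, (∀ x, 0 ≤ φ x) ∧ (∃ L : ℝ≥0, LipschitzWith L φ) ∧
      HasCompactSupport φ ∧ (∀ x, φ x ≠ 0 → x ∈ Metric.ball c (1 / ((m : ℝ) + 1))) ∧
      ∫ x, φ x = 1 ∧ nrm p U (fun x => (φ x : ℂ)) ≤ 1 / ((m : ℝ≥0∞) + 1) := fun m =>
    exists_bump hp hU Metric.isOpen_ball (hinf m) _ (by
      rw [ENNReal.div_pos_iff]
      refine ⟨one_ne_zero, ENNReal.add_ne_top.2 ⟨ENNReal.natCast_ne_top m, ENNReal.one_ne_top⟩⟩)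
  choose φ h0 hL hcs hsup hI hn using hb
  choose L hL using hL
  set φc : ℕ → ℝ → ℂ := fun m x => (φ m x : ℂ) with hφc
  have hφi : ∀ m, Integrable (φc m) := fun m => integrable_of_bump ⟨L m, hL m⟩ (hcs m)
  have hφ1 : ∀ m, ∫ x, φc m x = 1 := by
    intro m
    simp only [hφc]
    rw [integral_complex_ofReal, hI]; simp
  have htends : Tendsto (fun m : ℕ => (1:ℝ) / ((m : ℝ) + 1)) atTop (𝓝 0) :=
    tendsto_one_div_add_atTop_nhds_zero_nat
  -- the transforms of the bumps
  have hlim : ∀ x, x ≠ c → Tendsto (fun m => lipH (φc m) x) atTop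
      (𝓝 ((1 / (Real.pi : ℂ)) * (1 / ((x : ℂ) - c)))) := by
    intro x hx
    have hxc : 0 < |x - c| := abs_pos.2 (sub_ne_zero.2 hx)
    rw [tendsto_iff_norm_sub_tendsto_zero]
    refine squeeze_zero_norm' (a := fun m : ℕ => (2 / |x - c| ^ 2) * (1 / ((m : ℝ) + 1))) ?_ ?_
    · have hev := htends.eventually (gt_mem_nhds (show (0:ℝ) < |x - c| / 2 by positivity))
      filter_upwards [hev] with m hm
      have hpos : 0 < |x - c| / 2 := by positivity
      have hz : ∀ y, |y - x| < |x - c| / 2 → φc m y = 0 := by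
        intro y hy
        by_contra hne
        have hne' : φ m y ≠ 0 := fun h => hne (by simp only [hφc, h, Complex.ofReal_zero])
        have h1 := hsup m y hne'
        rw [Metric.mem_ball, Real.dist_eq] at h1
        have h2 : |x - c| ≤ |x - y| + |y - c| := abs_sub_le x y c
        rw [abs_sub_comm x y] at h2
        linarith
      have e := (lipH_pv (lip_ofReal (hL m)) (hφi m) x).unique (hasPV_of_zero hpos hz)
      have hxc' : (x : ℂ) - c ≠ 0 := by
        rw [← Complex.ofReal_sub]; exact_mod_cast sub_ne_zero.2 hx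
      have e2 : ∫ y, φc m y * (1 / ((x : ℂ) - c)) = 1 / ((x : ℂ) - c) := by
        rw [integral_mul_const, hφ1, one_mul]
      have hint1 : Integrable (fun y => φc m y / ((x : ℂ) - (y : ℂ))) := by
        refine ((hφi m).norm.const_mul (|x - c| / 2)⁻¹).mono' ?_ (Eventually.of_forall fun y => ?_)
        · refine (hφi m).aestronglyMeasurable.mul ?_
          exact (Measurable.inv (by fun_prop)).aestronglyMeasurable
        · rw [norm_div, norm_ofReal_sub, abs_sub_comm]
          by_cases hy : |y - x| < |x - c| / 2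
          · rw [hz y hy]; simp
          · push Not at hy
            rw [div_eq_inv_mul]
            exact mul_le_mul_of_nonneg_right (inv_anti₀ hpos hy) (norm_nonneg _)
      have e3 : lipH (φc m) x - (1 / (Real.pi : ℂ)) * (1 / ((x : ℂ) - c))
          = (1 / (Real.pi : ℂ)) * ∫ y, (φc m y / ((x : ℂ) - (y : ℂ))
            - φc m y * (1 / ((x : ℂ) - c))) := by
        rw [integral_sub hint1 ((hφi m).mul_const _), e2, e]
        ring
      rw [norm_norm, e3, norm_mul, norm_inv_pi]
      have h2 : ‖∫ y, (φc m y / ((x : ℂ) - (y : ℂ)) - φc m y * (1 / ((x : ℂ) - c)))‖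
          ≤ ∫ y, φ m y * ((2 / |x - c| ^ 2) * (1 / ((m : ℝ) + 1))) := by
        refine norm_integral_le_of_norm_le ((hφi m).re.mul_const _) ?_
        refine Eventually.of_forall fun y => ?_
        by_cases hy0 : φ m y = 0
        · simp [hφc, hy0]
        · have h1 := hsup m y hy0
          rw [Metric.mem_ball, Real.dist_eq] at h1
          have h3 : |x - c| ≤ |x - y| + |y - c| := abs_sub_le x y c
          have h4 : |x - c| / 2 ≤ |x - y| := by linarith
          have h4' : 0 < |x - y| := by linarith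
          have hne : (x : ℂ) - y ≠ 0 := by
            rw [← Complex.ofReal_sub]
            have : x - y ≠ 0 := by intro h; rw [h, abs_zero] at h4'; exact lt_irrefl _ h4'
            exact_mod_cast this
          have e4 : φc m y / ((x : ℂ) - (y : ℂ)) - φc m y * (1 / ((x : ℂ) - c))
              = φc m y * (((y : ℂ) - c) / (((x : ℂ) - y) * ((x : ℂ) - c))) := by
            field_simp
            ring
          rw [e4, norm_mul, norm_div, norm_mul, norm_ofReal_sub, norm_ofReal_sub, norm_ofReal_sub]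
          simp only [hφc]
          rw [Complex.norm_real, Real.norm_eq_abs, abs_of_nonneg (h0 m y)]
          refine mul_le_mul_of_nonneg_left ?_ (h0 m y)
          calc |y - c| / (|x - y| * |x - c|) ≤ (1 / ((m : ℝ) + 1)) / ((|x - c| / 2) * |x - c|) := by
                gcongr
            _ = (2 / |x - c| ^ 2) * (1 / ((m : ℝ) + 1)) := by
                field_simp
      rw [integral_mul_const, hI, one_mul] at h2
      calc 1 / Real.pi * _ ≤ 1 * ((2 / |x - c| ^ 2) * (1 / ((m : ℝ) + 1))) :=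
            mul_le_mul inv_pi_le_one h2 (norm_nonneg _) zero_le_one
        _ = _ := one_mul _
    · have := htends.const_mul (2 / |x - c| ^ 2)
      rwa [mul_zero] at this
  -- the truncated functions
  set S : ℕ → Set ℝ := fun n => {y : ℝ | |y - c| ≤ 1 / ((n : ℝ) + 1)} with hS
  have hSm : ∀ n, MeasurableSet (S n) := fun n => measurableSet_le (by fun_prop) measurable_const
  set hn' : ℕ → ℝ → ℂ := fun n => indicator (S n)ᶜ h with hhn
  have hhi : ∀ n, Integrable (hn' n) := fun n => hh.indicator (hSm n).compl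
  set f : ℕ → ℝ → ℂ := fun n y => hn' n y / ((y : ℂ) - c) with hf
  have hfh : ∀ n (y : ℝ), ((y : ℂ) - c) * f n y = hn' n y := by
    intro n y
    by_cases hy : y = c
    · have : hn' n y = 0 := by
        simp only [hhn]
        rw [indicator_of_notMem]
        rw [notMem_compl_iff]
        show |y - c| ≤ 1 / ((n : ℝ) + 1)
        rw [hy, sub_self, abs_zero]; positivity
      rw [this, hy]; simp
    · have : (y : ℂ) - c ≠ 0 := by
        rw [← Complex.ofReal_sub]; exact_mod_cast sub_ne_zero.2 hy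
      simp only [hf]
      field_simp
  have hfi : ∀ n, Integrable (f n) := by
    intro n
    refine ((hhi n).norm.const_mul ((n : ℝ) + 1)).mono' ?_ (Eventually.of_forall fun y => ?_)
    · refine (hhi n).aestronglyMeasurable.mul ?_
      exact (Measurable.inv (by fun_prop)).aestronglyMeasurable
    · simp only [hf]
      rw [norm_div, norm_ofReal_sub]
      by_cases hy : y ∈ S n
      · have : hn' n y = 0 := by
          simp only [hhn]; rw [indicator_of_notMem]; rw [notMem_compl_iff]; exact hy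
        rw [this]; simp
      · have hy' : 1 / ((n : ℝ) + 1) < |y - c| := not_le.1 hy
        have hpos : (0:ℝ) < 1 / ((n : ℝ) + 1) := by positivity
        rw [div_eq_inv_mul]
        refine mul_le_mul_of_nonneg_right ?_ (norm_nonneg _)
        calc |y - c|⁻¹ ≤ (1 / ((n : ℝ) + 1))⁻¹ := inv_anti₀ hpos hy'.le
          _ = (n : ℝ) + 1 := by rw [one_div, inv_inv]
  have hmul_i : ∀ n, Integrable (fun y : ℝ => ((y : ℂ) - c) * f n y) := by
    intro n
    simp_rw [hfh n]
    exact hhi n
  set e : ℕ → ℝ → ℂ := fun n x => (1 / (Real.pi : ℂ)) *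
    ∫ y, indicator (S n) h y / ((x : ℂ) - (y : ℂ)) with he
  set k' : ℕ → ℝ → ℂ := fun n x => if 1 / ((n : ℝ) + 1) < |x - c| then k x - e n x
    else (1 / (Real.pi : ℂ)) * ∫ y, hn' n y / ((x : ℂ) - (y : ℂ)) with hk'
  have hsplit : ∀ n y, hn' n y = h y - 1 * indicator (S n) h y := by
    intro n y
    simp only [hhn]
    by_cases hy : y ∈ S n
    · rw [indicator_of_mem hy, indicator_of_notMem (by rw [notMem_compl_iff]; exact hy)]; ring
    · rw [indicator_of_notMem hy, indicator_of_mem (by rw [mem_compl_iff]; exact hy)]; ring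
  have hkH : ∀ n, IsHilbert (hn' n) (k' n) := by
    intro n
    filter_upwards [hk, ae_ne_abs c (1 / ((n : ℝ) + 1))] with x hx hxn
    simp only [hk']
    by_cases hlt : 1 / ((n : ℝ) + 1) < |x - c|
    · rw [if_pos hlt]
      have h1 : HasPV (indicator (S n) h) x (e n x) := by
        refine hasPV_of_zero (ρ := |x - c| - 1 / ((n : ℝ) + 1)) (by linarith) fun y hy => ?_
        rw [indicator_of_notMem]
        intro hyS
        have hyS' : |y - c| ≤ 1 / ((n : ℝ) + 1) := hyS
        have h3 : |x - c| ≤ |x - y| + |y - c| := abs_sub_le x y c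
        rw [abs_sub_comm x y] at h3
        linarith
      have h2 := hx.sub_smul hh (hh.indicator (hSm n)) h1 1
      rw [one_mul] at h2
      have e5 : hn' n = fun y => h y - 1 * indicator (S n) h y := funext (hsplit n)
      rw [e5]
      exact h2
    · rw [if_neg hlt]
      have hlt' : |x - c| < 1 / ((n : ℝ) + 1) := lt_of_le_of_ne (not_lt.1 hlt) hxn
      refine hasPV_of_zero (ρ := 1 / ((n : ℝ) + 1) - |x - c|) (by linarith) fun y hy => ?_
      simp only [hhn]
      rw [indicator_of_notMem]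
      rw [notMem_compl_iff]
      show |y - c| ≤ 1 / ((n : ℝ) + 1)
      have h3 : |y - c| ≤ |y - x| + |x - c| := abs_sub_le y x c
      linarith
  set A : ℕ → ℂ := fun n => ∫ y, f n y with hA
  set g : ℕ → ℝ → ℂ := fun n x => (k' n x + (1 / (Real.pi : ℂ)) * A n) / ((x : ℂ) - c) with hg
  have hgH : ∀ n, IsHilbert (f n) (g n) := by
    intro n
    filter_upwards [hkH n, ae_ne (c : ℂ)] with x hx hxc
    have h1 : HasPV (fun y : ℝ => ((y : ℂ) - c) * f n y) x (k' n x) := by
      have : (fun y : ℝ => ((y : ℂ) - c) * f n y) = hn' n := funext (hfh n)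
      rw [this]; exact hx
    exact h1.of_mul_sub (c : ℂ) hxc (hfi n) (hmul_i n)
  -- first limit
  have hfirst : ∀ n, nrm p (divW p (c : ℂ) U) (k' n)
      ≤ ((C * 2 ^ p : ℝ≥0) : ℝ≥0∞) * nrm p (divW p (c : ℂ) U) h := by
    intro n
    have hle : nrm p U (f n) ≤ nrm p (divW p (c : ℂ) U) h := by
      have h1 : nrm p U (f n) = nrm p (divW p (c : ℂ) U) (hn' n) := nrm_div hp0 c (hn' n)
      rw [h1]
      refine lintegral_mono fun y => ?_
      simp only [hhn]
      gcongr
      exact enorm_indicator_le_enorm_self _ _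
    rw [← nrm_div hp0]
    have hgm : AEMeasurable (g n) := IsHilbert.aemeasurable (hfi n) (hgH n)
    have hφm : ∀ m, AEMeasurable (lipH (φc m)) := fun m =>
      IsHilbert.aemeasurable (hφi m) (Eventually.of_forall fun x =>
        lipH_pv (lip_ofReal (hL m)) (hφi m) x)
    have hstep : ∀ m, nrm p U (fun x => g n x - A n * lipH (φc m) x)
        ≤ C * (2 ^ p * (nrm p (divW p (c : ℂ) U) h + ‖A n‖ₑ ^ p * (1 / ((m : ℝ≥0∞) + 1)))) := by
      intro m
      have h1 := hC (fun x => f n x - A n * φc m x) (fun x => g n x - A n * lipH (φc m) x)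
        ((hfi n).sub ((hφi m).const_mul (A n))) ?_ ?_
      · refine h1.trans ?_
        gcongr
        refine (nrm_sub_le hp hU.meas (hfi n).aestronglyMeasurable.aemeasurable (A n)).trans ?_
        gcongr
        exact hn m
      · rw [integral_sub (hfi n) ((hφi m).const_mul (A n)), integral_const_mul, hφ1, mul_one,
          sub_self]
      · filter_upwards [hgH n] with x hx
        exact hx.sub_smul (hfi n) (hφi m) (lipH_pv (lip_ofReal (hL m)) (hφi m) x) (A n)
    refine nrm_le_of_tendsto hp0 hU.meas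
      (fun m => hgm.sub ((hφm m).const_mul (A n))) ?_ ?_ hstep
    · have hne : ∀ᵐ x : ℝ, x ≠ c := by rw [ae_iff]; simp
      filter_upwards [hne] with x hx
      have h1 := (tendsto_const_nhds (x := g n x)).sub ((hlim x hx).const_mul (A n))
      have e6 : g n x - A n * ((1 / (Real.pi : ℂ)) * (1 / ((x : ℂ) - c)))
          = k' n x / ((x : ℂ) - c) := by
        simp only [hg]
        ring
      rw [e6] at h1
      exact h1
    · have h1 : Tendsto (fun m : ℕ => (1 : ℝ≥0∞) / ((m : ℝ≥0∞) + 1)) atTop (𝓝 0) := by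
        have h2 : Tendsto (fun m : ℕ => ((m + 1 : ℕ) : ℝ≥0∞)⁻¹) atTop (𝓝 0) :=
          (tendsto_add_atTop_iff_nat 1).2 ENNReal.tendsto_inv_nat_nhds_zero
        refine h2.congr fun m => ?_
        rw [one_div]; push_cast; rfl
      have hap : ‖A n‖ₑ ^ p ≠ ∞ := ENNReal.rpow_ne_top_of_nonneg hp0.le enorm_ne_top
      have h2 := ENNReal.Tendsto.const_mul (a := ‖A n‖ₑ ^ p) h1 (Or.inr hap)
      rw [mul_zero] at h2
      have h3 := (tendsto_const_nhds (x := nrm p (divW p (c : ℂ) U) h)).add h2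
      rw [add_zero] at h3
      have h2p : (2 : ℝ≥0∞) ^ p ≠ ∞ := ENNReal.rpow_ne_top_of_nonneg hp0.le (by norm_num)
      have h4 := ENNReal.Tendsto.const_mul (a := (2 : ℝ≥0∞) ^ p) h3 (Or.inr h2p)
      have h5 := ENNReal.Tendsto.const_mul (a := (C : ℝ≥0∞)) h4 (Or.inr ENNReal.coe_ne_top)
      have e7 : ((C * 2 ^ p : ℝ≥0) : ℝ≥0∞) * nrm p (divW p (c : ℂ) U) h
          = C * (2 ^ p * nrm p (divW p (c : ℂ) U) h) := by
        rw [ENNReal.coe_mul, ENNReal.coe_rpow_of_nonneg _ hp0.le]
        push_cast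
        ring
      rw [e7]
      exact h5
  -- second limit
  refine nrm_le_of_tendsto hp0 (divW_meas _ hU.meas) (g := k')
    (fun n => IsHilbert.aemeasurable (hhi n) (hkH n)) ?_ tendsto_const_nhds hfirst
  have hne : ∀ᵐ x : ℝ, x ≠ c := by rw [ae_iff]; simp
  filter_upwards [hne] with x hx
  have hxc : 0 < |x - c| := abs_pos.2 (sub_ne_zero.2 hx)
  have he0 : Tendsto (fun n => e n x) atTop (𝓝 0) := by
    have h1 : Tendsto (fun n => ∫ y, indicator (S n) h y / ((x : ℂ) - (y : ℂ))) atTop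
        (𝓝 (∫ y : ℝ, (0 : ℂ))) := by
      refine tendsto_integral_filter_of_dominated_convergence
        (fun y => (|x - c| / 2)⁻¹ * ‖h y‖) ?_ ?_ (hh.norm.const_mul _) ?_
      · refine Eventually.of_forall fun n => ?_
        refine (hh.aestronglyMeasurable.indicator (hSm n)).mul ?_
        exact (Measurable.inv (by fun_prop)).aestronglyMeasurable
      · have hev := htends.eventually (gt_mem_nhds (show (0:ℝ) < |x - c| / 2 by positivity))
        filter_upwards [hev] with n hn2
        refine Eventually.of_forall fun y => ?_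
        rw [norm_div, norm_ofReal_sub]
        by_cases hy : y ∈ S n
        · have hy' : |y - c| ≤ 1 / ((n : ℝ) + 1) := hy
          have h3 : |x - c| ≤ |x - y| + |y - c| := abs_sub_le x y c
          rw [indicator_of_mem hy, div_eq_inv_mul]
          exact mul_le_mul_of_nonneg_right (inv_anti₀ (by positivity) (by linarith)) (norm_nonneg _)
        · rw [indicator_of_notMem hy, norm_zero, zero_div]
          positivity
      · filter_upwards [hne] with y hy
        have hyc : 0 < |y - c| := abs_pos.2 (sub_ne_zero.2 hy)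
        refine tendsto_const_nhds.congr' ?_
        filter_upwards [htends.eventually (gt_mem_nhds hyc)] with n hn2
        rw [indicator_of_notMem, zero_div]
        exact not_le.2 hn2
    have h2 := h1.const_mul (1 / (Real.pi : ℂ))
    rw [integral_zero, mul_zero] at h2
    exact h2
  have h1 := (tendsto_const_nhds (x := k x)).sub he0
  rw [sub_zero] at h1
  refine h1.congr' ?_
  filter_upwards [htends.eventually (gt_mem_nhds hxc)] with n hn2
  simp only [hk']
  rw [if_pos hn2]

end Pool.Agent.N246.MZ
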