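import Pool.Agent.N246.MZ.CaseB

set_option autoImplicit false
open MeasureTheory Set Filter Topology
open scoped ENNReal NNReal

namespace Pool.Agent.N246.MZ

variable {p : ℝ} {U : ℝ → ℝ≥0}

theorem Strong.admissible (h : Strong p U) : Admissible p U := by
  obtain ⟨C, hC⟩ := h
  exact ⟨C, fun f g hf _ hg => hC f g hf hg⟩

/-- the converse -/
theorem admissible_of_strong (hp : 1 < p) (hU : IsWeight U) (ζ : ℂ)
    (hS : Strong p (divW p ζ U)) : Admissible p U := by
  have hp0 : 0 < p := by linarith
  obtain ⟨C, hC⟩ := hS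
  refine ⟨C, fun f g hf hf0 hg => ?_⟩
  set S : ℕ → Set ℝ := fun n => {y : ℝ | |y| ≤ (n : ℝ)} with hSd
  have hSm : ∀ n, MeasurableSet (S n) := fun n => measurableSet_le (by fun_prop) measurable_const
  set fn : ℕ → ℝ → ℂ := fun n => indicator (S n) f with hfn
  have hfi : ∀ n, Integrable (fn n) := fun n => hf.indicator (hSm n)
  set e : ℕ → ℝ → ℂ := fun n x => (1 / (Real.pi : ℂ)) *
    ∫ y, indicator (S n)ᶜ f y / ((x : ℂ) - (y : ℂ)) with he
  set gn : ℕ → ℝ → ℂ := fun n x => if |x| < (n : ℝ) then g x - e n x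
    else (1 / (Real.pi : ℂ)) * ∫ y, fn n y / ((x : ℂ) - (y : ℂ)) with hgn
  have hsplit : ∀ n y, fn n y = f y - 1 * indicator (S n)ᶜ f y := by
    intro n y
    simp only [hfn]
    by_cases hy : y ∈ S n
    · rw [indicator_of_mem hy, indicator_of_notMem (by rw [notMem_compl_iff]; exact hy)]; ring
    · rw [indicator_of_notMem hy, indicator_of_mem (by rw [mem_compl_iff]; exact hy)]; ring
  have hgH : ∀ n, IsHilbert (fn n) (gn n) := by
    intro n
    filter_upwards [hg, ae_ne_abs 0 (n : ℝ)] with x hx hxn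
    rw [sub_zero] at hxn
    simp only [hgn]
    by_cases hlt : |x| < (n : ℝ)
    · rw [if_pos hlt]
      have h1 : HasPV (indicator (S n)ᶜ f) x (e n x) := by
        refine hasPV_of_zero (ρ := (n : ℝ) - |x|) (by linarith) fun y hy => ?_
        rw [indicator_of_notMem]
        rw [notMem_compl_iff]
        show |y| ≤ (n : ℝ)
        have h3 : |y| ≤ |y - x| + |x| := by
          have := abs_add_le (y - x) x; rwa [sub_add_cancel] at this
        linarith
      have h2 := hx.sub_smul hf (hf.indicator (hSm n).compl) h1 1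
      rw [one_mul] at h2
      have e5 : fn n = fun y => f y - 1 * indicator (S n)ᶜ f y := funext (hsplit n)
      rw [e5]
      exact h2
    · rw [if_neg hlt]
      have hlt' : (n : ℝ) < |x| := lt_of_le_of_ne (not_lt.1 hlt) (Ne.symm hxn)
      refine hasPV_of_zero (ρ := |x| - (n : ℝ)) (by linarith) fun y hy => ?_
      simp only [hfn]
      rw [indicator_of_notMem]
      intro hyS
      have hyS' : |y| ≤ (n : ℝ) := hyS
      have h3 : |x| ≤ |y - x| + |y| := by
        have := abs_add_le (-(y - x)) y
        rw [abs_neg] at this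
        rwa [show -(y - x) + y = x by ring] at this
      linarith
  have hhi : ∀ n, Integrable (fun y : ℝ => ((y : ℂ) - ζ) * fn n y) := by
    intro n
    refine ((hfi n).norm.const_mul ((n : ℝ) + ‖ζ‖)).mono' ?_ (Eventually.of_forall fun y => ?_)
    · exact (Measurable.aestronglyMeasurable (by fun_prop)).mul (hfi n).aestronglyMeasurable
    · rw [norm_mul]
      by_cases hy : y ∈ S n
      · refine mul_le_mul_of_nonneg_right ?_ (norm_nonneg _)
        refine (norm_sub_le _ _).trans (add_le_add ?_ le_rfl)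
        rw [Complex.norm_real]
        exact hy
      · simp only [hfn]
        rw [indicator_of_notMem hy]; simp
  set A : ℕ → ℂ := fun n => ∫ y, fn n y with hA
  have hkH : ∀ n, IsHilbert (fun y : ℝ => ((y : ℂ) - ζ) * fn n y)
      (fun x => ((x : ℂ) - ζ) * gn n x - (1 / (Real.pi : ℂ)) * A n) := by
    intro n
    filter_upwards [hgH n] with x hx
    exact hx.mul_sub ζ (hfi n)
  have hstep : ∀ n, nrm p (divW p ζ U) (fun x => ((x : ℂ) - ζ) * gn n x - (1 / (Real.pi : ℂ)) * A n)
      ≤ C * nrm p U f := by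
    intro n
    refine (hC _ _ (hhi n) (hkH n)).trans ?_
    gcongr
    rw [nrm_mul hp0]
    refine lintegral_mono fun y => ?_
    simp only [hfn]
    gcongr
    exact enorm_indicator_le_enorm_self _ _
  rw [← nrm_mul hp0 ζ]
  refine nrm_le_of_tendsto hp0 (divW_meas _ hU.meas)
    (fun n => IsHilbert.aemeasurable (hhi n) (hkH n)) ?_ tendsto_const_nhds hstep
  -- convergence
  have hA0 : Tendsto A atTop (𝓝 0) := by
    rw [← hf0]
    refine tendsto_integral_filter_of_dominated_convergence (fun y => ‖f y‖) ?_ ?_ hf.norm ?_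
    · exact Eventually.of_forall fun n => (hfi n).aestronglyMeasurable
    · exact Eventually.of_forall fun n => Eventually.of_forall fun y =>
        norm_indicator_le_norm_self _ _
    · refine Eventually.of_forall fun y => ?_
      refine tendsto_const_nhds.congr' ?_
      obtain ⟨N, hN⟩ := exists_nat_ge |y|
      filter_upwards [eventually_ge_atTop N] with n hn
      simp only [hfn]
      rw [indicator_of_mem]
      exact hN.trans (by exact_mod_cast hn)
  refine Eventually.of_forall fun x => ?_
  have he0 : Tendsto (fun n => e n x) atTop (𝓝 0) := by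
    have h1 : Tendsto (fun n => ∫ y, indicator (S n)ᶜ f y / ((x : ℂ) - (y : ℂ))) atTop
        (𝓝 (∫ y : ℝ, (0 : ℂ))) := by
      refine tendsto_integral_filter_of_dominated_convergence
        (fun y => ‖f y‖) ?_ ?_ hf.norm ?_
      · refine Eventually.of_forall fun n => ?_
        refine (hf.aestronglyMeasurable.indicator (hSm n).compl).mul ?_
        exact (Measurable.inv (by fun_prop)).aestronglyMeasurable
      · obtain ⟨N, hN⟩ := exists_nat_ge (|x| + 1)
        filter_upwards [eventually_ge_atTop N] with n hn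
        refine Eventually.of_forall fun y => ?_
        rw [norm_div, norm_ofReal_sub]
        by_cases hy : y ∈ S n
        · rw [indicator_of_notMem (by rw [notMem_compl_iff]; exact hy), norm_zero, zero_div]
          positivity
        · rw [indicator_of_mem (by rw [mem_compl_iff]; exact hy)]
          have hy' : (n : ℝ) < |y| := not_le.1 hy
          have hn' : |x| + 1 ≤ n := hN.trans (by exact_mod_cast hn)
          have h3 : |y| ≤ |x - y| + |x| := by
            have := abs_add_le (-(x - y)) x
            rw [abs_neg] at this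
            rwa [show -(x - y) + x = y by ring] at this
          exact div_le_self (norm_nonneg _) (by linarith)
      · refine Eventually.of_forall fun y => ?_
        refine tendsto_const_nhds.congr' ?_
        obtain ⟨N, hN⟩ := exists_nat_ge |y|
        filter_upwards [eventually_ge_atTop N] with n hn
        rw [indicator_of_notMem, zero_div]
        rw [notMem_compl_iff]
        exact hN.trans (by exact_mod_cast hn)
    have h2 := h1.const_mul (1 / (Real.pi : ℂ))
    rw [integral_zero, mul_zero] at h2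
    exact h2
  have hgx : Tendsto (fun n => gn n x) atTop (𝓝 (g x)) := by
    have h1 := (tendsto_const_nhds (x := g x)).sub he0
    rw [sub_zero] at h1
    refine h1.congr' ?_
    obtain ⟨N, hN⟩ := exists_nat_gt |x|
    filter_upwards [eventually_ge_atTop N] with n hn
    simp only [hgn]
    rw [if_pos (lt_of_lt_of_le hN (by exact_mod_cast hn))]
  have h1 := (hgx.const_mul ((x : ℂ) - ζ)).sub (hA0.const_mul (1 / (Real.pi : ℂ)))
  rwa [mul_zero, sub_zero] at h1

/-- division by `|x - i|^p` gives a weight -/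
theorem isWeight_I (hp : 1 < p) (hU : IsWeight U) : IsWeight (divW p Complex.I U) := by
  have hp0 : 0 < p := by linarith
  refine ⟨divW_meas _ hU.meas, fun R => ?_, fun h => hU.ne_zero ?_⟩
  · refine lt_of_le_of_lt ?_ (hU.loc R)
    refine lintegral_mono fun x => ?_
    rw [divW]
    have h1 : (1 : ℝ≥0) ≤ ‖(x : ℂ) - Complex.I‖₊ := norm_sub_I_ge x
    have h2 : ‖(x : ℂ) - Complex.I‖₊ ^ (-p) ≤ 1 :=
      NNReal.rpow_le_one_of_one_le_of_nonpos h1 (by linarith)
    exact ENNReal.coe_le_coe.2 (mul_le_of_le_one_left zero_le h2)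
  · filter_upwards [h] with x hx
    rw [divW] at hx
    rcases mul_eq_zero.1 hx with h1 | h1
    · exfalso
      rw [NNReal.rpow_eq_zero_iff] at h1
      have := norm_sub_I_ge x
      have h2 : ‖(x : ℂ) - Complex.I‖ = 0 := by
        have := h1.1
        rw [← coe_nnnorm, this]; rfl
      linarith
    · exact h1

/-- division by `|x - c|^p` gives a weight in the singular case -/
theorem isWeight_c (hp : 1 < p) (hU : IsWeight U) (c : ℝ)
    (hS : Strong p (divW p (c : ℂ) U)) : IsWeight (divW p (c : ℂ) U) := by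
  have hp0 : 0 < p := by linarith
  have hle : ∀ x : ℝ, 1 ≤ |x - c| → divW p (c : ℂ) U x ≤ U x := by
    intro x hx
    rw [divW]
    have h1 : (1 : ℝ≥0) ≤ ‖(x : ℂ) - c‖₊ := by
      rw [← NNReal.coe_le_coe, coe_nnnorm, norm_ofReal_sub]; exact hx
    have h2 : ‖(x : ℂ) - c‖₊ ^ (-p) ≤ 1 :=
      NNReal.rpow_le_one_of_one_le_of_nonpos h1 (by linarith)
    exact mul_le_of_le_one_left zero_le h2
  -- near `c`
  have hnear : ∫⁻ x in {x : ℝ | |x - c| < 1}, (divW p (c : ℂ) U x : ℝ≥0∞) < ∞ := by
    obtain ⟨C, hC⟩ := hS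
    obtain ⟨ψ, h0, hL, hcs, hs, hI⟩ := std_bump (c + 3)
    obtain ⟨L, hL⟩ := hL
    set ψc : ℝ → ℂ := fun x => (ψ x : ℂ) with hψc
    have hψi : Integrable ψc := integrable_of_bump ⟨L, hL⟩ hcs
    have hψr : Integrable ψ := hL.continuous.integrable_of_hasCompactSupport hcs
    have h1 := hC ψc (lipH ψc) hψi (Eventually.of_forall fun x => lipH_pv (lip_ofReal hL) hψi x)
    have hfin : nrm p (divW p (c : ℂ) U) ψc < ∞ := by
      refine lt_of_le_of_lt ?_ (nrm_bump_finite hp0 hU ⟨L, hL⟩ hcs)
      refine lintegral_mono fun x => ?_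
      by_cases hx : ψ x = 0
      · simp [hψc, hx, hp0]
      · have h2 := hs x hx
        rw [abs_lt] at h2
        have h3 : 1 ≤ |x - c| := by
          rw [le_abs]; left; linarith [h2.1]
        show ‖ψc x‖ₑ ^ p * (divW p (c : ℂ) U x : ℝ≥0∞) ≤ ‖ψc x‖ₑ ^ p * U x
        gcongr
        exact hle x h3
    have hfin2 : nrm p (divW p (c : ℂ) U) (lipH ψc) < ∞ :=
      lt_of_le_of_lt h1 (ENNReal.mul_lt_top ENNReal.coe_lt_top hfin)
    have key : ∀ x : ℝ, |x - c| < 1 → 1 ≤ 20 * ‖lipH ψc x‖ := by
      intro x hx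
      rw [abs_lt] at hx
      have hz : ∀ y, |y - x| < 1 → ψc y = 0 := by
        intro y hy
        have : ψ y = 0 := by
          by_contra hne
          have h3 := hs y hne
          rw [abs_lt] at h3 hy
          linarith [h3.1, hy.2, hx.2]
        simp only [hψc, this, Complex.ofReal_zero]
      have e := (lipH_pv (lip_ofReal hL) hψi x).unique (hasPV_of_zero one_pos hz)
      have e2 : ∫ y, ψc y / ((x : ℂ) - (y : ℂ)) = ((-(∫ y, ψ y * (1 / (y - x))) : ℝ) : ℂ) := by
        rw [← integral_neg, ← integral_complex_ofReal]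
        refine integral_congr_ae (Eventually.of_forall fun y => ?_)
        simp only [hψc]
        push_cast
        rw [show (x : ℂ) - y = -((y : ℂ) - x) by ring, div_neg]
        ring
      have h4 : (1 : ℝ) / 5 ≤ ∫ y, ψ y * (1 / (y - x)) := by
        have h5 : ∫ y, ψ y * (1 / 5) = 1 / 5 := by rw [integral_mul_const, hI, one_mul]
        rw [← h5]
        refine integral_mono (hψr.mul_const _) ?_ fun y => ?_
        · refine (hψr.norm.const_mul 1).mono' ?_ (Eventually.of_forall fun y => ?_)
          · exact hψr.aestronglyMeasurable.mul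
              (Measurable.aestronglyMeasurable (by fun_prop))
          · by_cases hy : ψ y = 0
            · simp [hy]
            · have h3 := hs y hy
              rw [abs_lt] at h3
              have h6 : 1 ≤ y - x := by linarith [h3.1, hx.2]
              rw [norm_mul, one_mul]
              refine mul_le_of_le_one_right (norm_nonneg _) ?_
              rw [norm_div, norm_one, Real.norm_eq_abs, abs_of_pos (by linarith),
                div_le_one (by linarith)]
              exact h6
        · by_cases hy : ψ y = 0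
          · simp [hy]
          · have h3 := hs y hy
            rw [abs_lt] at h3
            refine mul_le_mul_of_nonneg_left ?_ (h0 y)
            exact one_div_le_one_div_of_le (by linarith [h3.1, hx.2]) (by linarith [h3.2, hx.1])
      rw [e, e2, norm_mul, norm_inv_pi, Complex.norm_real, Real.norm_eq_abs, abs_neg,
        abs_of_nonneg (by linarith)]
      have h7 : 1 / 4 ≤ 1 / Real.pi := one_div_le_one_div_of_le Real.pi_pos Real.pi_le_four
      have h8 : 1 / 4 * (1 / 5) ≤ 1 / Real.pi * ∫ y, ψ y * (1 / (y - x)) :=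
        mul_le_mul h7 h4 (by norm_num) (by positivity)
      linarith
    have hms : MeasurableSet {x : ℝ | |x - c| < 1} := measurableSet_lt (by fun_prop) measurable_const
    calc ∫⁻ x in {x : ℝ | |x - c| < 1}, (divW p (c : ℂ) U x : ℝ≥0∞)
        ≤ ∫⁻ x in {x : ℝ | |x - c| < 1}, 20 ^ p * (‖lipH ψc x‖ₑ ^ p * divW p (c : ℂ) U x) := by
          refine setLIntegral_mono' hms fun x hx => ?_
          have h9 : (1 : ℝ≥0∞) ≤ 20 * ‖lipH ψc x‖ₑ := by
            rw [← ofReal_norm, show (20 : ℝ≥0∞) = ENNReal.ofReal 20 by simp,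
              ← ENNReal.ofReal_mul (by norm_num), ← ENNReal.ofReal_one]
            exact ENNReal.ofReal_le_ofReal (key x hx)
          calc (divW p (c : ℂ) U x : ℝ≥0∞) = 1 ^ p * divW p (c : ℂ) U x := by
                rw [ENNReal.one_rpow, one_mul]
            _ ≤ (20 * ‖lipH ψc x‖ₑ) ^ p * divW p (c : ℂ) U x := by gcongr
            _ = _ := by rw [ENNReal.mul_rpow_of_nonneg _ _ hp0.le, mul_assoc]
      _ ≤ ∫⁻ x, 20 ^ p * (‖lipH ψc x‖ₑ ^ p * divW p (c : ℂ) U x) := setLIntegral_le_lintegral _ _
      _ = 20 ^ p * nrm p (divW p (c : ℂ) U) (lipH ψc) :=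
          lintegral_const_mul' _ _ (ENNReal.rpow_ne_top_of_nonneg hp0.le (by norm_num))
      _ < ∞ := ENNReal.mul_lt_top (ENNReal.rpow_lt_top_of_nonneg hp0.le (by norm_num)) hfin2
  refine ⟨divW_meas _ hU.meas, fun R => ?_, fun h => hU.ne_zero ?_⟩
  · have hms : MeasurableSet {x : ℝ | |x - c| < 1} := measurableSet_lt (by fun_prop) measurable_const
    calc ∫⁻ x in Icc (-R) R, (divW p (c : ℂ) U x : ℝ≥0∞)
        ≤ ∫⁻ x in Icc (-R) R, (indicator {x : ℝ | |x - c| < 1}
            (fun x => (divW p (c : ℂ) U x : ℝ≥0∞)) x + U x) := by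
          refine lintegral_mono fun x => ?_
          by_cases hx : x ∈ {x : ℝ | |x - c| < 1}
          · rw [indicator_of_mem hx]; exact le_self_add
          · rw [indicator_of_notMem hx, zero_add]
            have : 1 ≤ |x - c| := not_lt.1 hx
            exact ENNReal.coe_le_coe.2 (hle x this)
      _ = (∫⁻ x in Icc (-R) R, indicator {x : ℝ | |x - c| < 1}
            (fun x => (divW p (c : ℂ) U x : ℝ≥0∞)) x) + ∫⁻ x in Icc (-R) R, (U x : ℝ≥0∞) := by
          refine lintegral_add_left ?_ _
          refine Measurable.indicator ?_ hms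
          have := divW_meas (p := p) (c : ℂ) hU.meas
          fun_prop
      _ < ∞ := by
          refine ENNReal.add_lt_top.2 ⟨?_, hU.loc R⟩
          refine lt_of_le_of_lt (setLIntegral_le_lintegral _ _) ?_
          rw [lintegral_indicator hms]
          exact hnear
  · filter_upwards [h, ae_ne (c : ℂ)] with x hx hxc
    rw [divW] at hx
    rcases mul_eq_zero.1 hx with h1 | h1
    · exfalso
      rw [NNReal.rpow_eq_zero_iff] at h1
      exact sub_ne_zero.2 hxc (nnnorm_eq_zero.1 h1.1)
    · exact h1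

/-- the trichotomy -/
theorem trichotomy (hU : Measurable U) :
    (∫⁻ x, sig p U x < ∞) ∨ (∀ M : ℕ, ∫⁻ x in {x : ℝ | (M : ℝ) < |x|}, sig p U x = ∞) ∨
    ∃ c : ℝ, ∀ m : ℕ, ∫⁻ x in Metric.ball c (1 / ((m : ℝ) + 1)), sig p U x = ∞ := by
  by_contra hcon
  push Not at hcon
  obtain ⟨h1, ⟨M, hM⟩, h2⟩ := hcon
  have h3 : ∫⁻ x in Icc (-(M : ℝ)) M, sig p U x < ∞ := by
    have hloc : ∀ x ∈ Icc (-(M : ℝ)) M, ∃ t ∈ 𝓝[Icc (-(M : ℝ)) M] x,
        ∫⁻ y in t, sig p U y < ∞ := by
      intro x _
      obtain ⟨m, hm⟩ := h2 x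
      exact ⟨_, mem_nhdsWithin_of_mem_nhds (Metric.ball_mem_nhds x (by positivity)),
        lt_top_iff_ne_top.2 hm⟩
    refine isCompact_Icc.induction_on (p := fun s => ∫⁻ y in s, sig p U y < ∞) ?_ ?_ ?_ hloc
    · simp
    · intro s t hst ht
      exact lt_of_le_of_lt (lintegral_mono_set hst) ht
    · intro s t hs ht
      exact lt_of_le_of_lt (lintegral_union_le _ s t) (ENNReal.add_lt_top.2 ⟨hs, ht⟩)
  have h4 : ∫⁻ x, sig p U x ≤ (∫⁻ x in Icc (-(M : ℝ)) M, sig p U x) +
      ∫⁻ x in {x : ℝ | (M : ℝ) < |x|}, sig p U x := by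
    rw [← setLIntegral_univ (sig p U)]
    refine le_trans (lintegral_mono_set ?_) (lintegral_union_le _ _ _)
    intro x _
    by_cases hx : (M : ℝ) < |x|
    · right; exact hx
    · left; exact abs_le.1 (not_lt.1 hx)
  have h5 : ∫⁻ x, sig p U x < ∞ :=
    lt_of_le_of_lt h4 (ENNReal.add_lt_top.2 ⟨h3, lt_top_iff_ne_top.2 hM⟩)
  exact absurd h5 (not_lt.2 h1)

/-- **Characterisation.** -/
theorem char (hp : 1 < p) (hU : IsWeight U) :
    Admissible p U ↔ (Strong p U ∨
      ∃ ζ : ℂ, IsWeight (divW p ζ U) ∧ Strong p (divW p ζ U)) := by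
  constructor
  · intro hA
    rcases trichotomy (p := p) hU.meas with h | h | ⟨c, h⟩
    · right
      exact ⟨Complex.I, isWeight_I hp hU, strong_of_int hp hU h hA⟩
    · left
      exact strong_of_inf hp hU h hA
    · right
      have hS := strong_of_sing hp hU c h hA
      exact ⟨c, isWeight_c hp hU c hS, hS⟩
  · rintro (h | ⟨ζ, _, h⟩)
    · exact h.admissible
    · exact admissible_of_strong hp hU ζ h

end Pool.Agent.N246.MZ
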