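import Pool.Agent.N246.MZ.Bump

set_option autoImplicit false
open MeasureTheory Set Filter Topology
open scoped ENNReal NNReal

namespace Pool.Agent.N246.MZ

variable {p : ℝ} {U : ℝ → ℝ≥0}

theorem nrm_meas (_hp : 0 < p) (hU : Measurable U) {g : ℝ → ℂ} (hg : AEMeasurable g) :
    AEMeasurable (fun x => ‖g x‖ₑ ^ p * (U x : ℝ≥0∞)) := by
  have h1 : AEMeasurable (fun x => ‖g x‖ₑ) := hg.enorm
  have h2 : AEMeasurable (fun x => (U x : ℝ≥0∞)) := by fun_prop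
  exact (h1.pow_const p).mul h2

/-- Fatou -/
theorem nrm_le_of_tendsto (hp : 0 < p) (hU : Measurable U) {g : ℕ → ℝ → ℂ} {g' : ℝ → ℂ}
    (hg : ∀ n, AEMeasurable (g n)) (h : ∀ᵐ x, Tendsto (fun n => g n x) atTop (𝓝 (g' x)))
    {B : ℕ → ℝ≥0∞} {b : ℝ≥0∞} (hB : Tendsto B atTop (𝓝 b)) (hle : ∀ n, nrm p U (g n) ≤ B n) :
    nrm p U g' ≤ b := by
  have h1 : nrm p U g' = ∫⁻ x, liminf (fun n => ‖g n x‖ₑ ^ p * (U x : ℝ≥0∞)) atTop := by
    refine lintegral_congr_ae ?_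
    filter_upwards [h] with x hx
    refine (Tendsto.liminf_eq ?_).symm
    refine ENNReal.Tendsto.mul_const ?_ (Or.inr ENNReal.coe_ne_top)
    exact (ENNReal.continuous_rpow_const.tendsto _).comp ((continuous_enorm.tendsto _).comp hx)
  rw [h1]
  refine (lintegral_liminf_le' fun n => nrm_meas hp hU (hg n)).trans ?_
  calc liminf (fun n => ∫⁻ x, ‖g n x‖ₑ ^ p * (U x : ℝ≥0∞)) atTop ≤ liminf B atTop :=
        liminf_le_liminf (Eventually.of_forall hle)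
    _ = b := hB.liminf_eq

theorem nrm_sub_le (hp : 1 < p) (hU : Measurable U) {f φ : ℝ → ℂ} (hf : AEMeasurable f) (a : ℂ) :
    nrm p U (fun x => f x - a * φ x) ≤ 2 ^ p * (nrm p U f + ‖a‖ₑ ^ p * nrm p U φ) := by
  have hp0 : 0 < p := by linarith
  have h1 : ∀ x, ‖f x - a * φ x‖ₑ ^ p * (U x : ℝ≥0∞)
      ≤ 2 ^ p * (‖f x‖ₑ ^ p * U x) + 2 ^ p * ‖a‖ₑ ^ p * (‖φ x‖ₑ ^ p * U x) := by
    intro x
    have h2 : ‖f x - a * φ x‖ₑ ≤ 2 * max ‖f x‖ₑ (‖a‖ₑ * ‖φ x‖ₑ) := by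
      calc ‖f x - a * φ x‖ₑ ≤ ‖f x‖ₑ + ‖a * φ x‖ₑ := enorm_sub_le
        _ = ‖f x‖ₑ + ‖a‖ₑ * ‖φ x‖ₑ := by rw [enorm_mul]
        _ ≤ max ‖f x‖ₑ (‖a‖ₑ * ‖φ x‖ₑ) + max ‖f x‖ₑ (‖a‖ₑ * ‖φ x‖ₑ) :=
            add_le_add (le_max_left _ _) (le_max_right _ _)
        _ = _ := (two_mul _).symm
    have h3 : ‖f x - a * φ x‖ₑ ^ p ≤ 2 ^ p * (‖f x‖ₑ ^ p + ‖a‖ₑ ^ p * ‖φ x‖ₑ ^ p) := by
      calc ‖f x - a * φ x‖ₑ ^ p ≤ (2 * max ‖f x‖ₑ (‖a‖ₑ * ‖φ x‖ₑ)) ^ p :=
            ENNReal.rpow_le_rpow h2 hp0.le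
        _ = 2 ^ p * (max ‖f x‖ₑ (‖a‖ₑ * ‖φ x‖ₑ)) ^ p := ENNReal.mul_rpow_of_nonneg _ _ hp0.le
        _ ≤ _ := by
          gcongr
          rcases max_choice ‖f x‖ₑ (‖a‖ₑ * ‖φ x‖ₑ) with h | h
          · rw [h]; exact le_self_add
          · rw [h, ENNReal.mul_rpow_of_nonneg _ _ hp0.le]; exact le_add_self
    calc ‖f x - a * φ x‖ₑ ^ p * (U x : ℝ≥0∞)
        ≤ (2 ^ p * (‖f x‖ₑ ^ p + ‖a‖ₑ ^ p * ‖φ x‖ₑ ^ p)) * U x := by gcongr
      _ = _ := by ring
  have h2p : (2 : ℝ≥0∞) ^ p * ‖a‖ₑ ^ p ≠ ∞ :=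
    ENNReal.mul_ne_top (ENNReal.rpow_ne_top_of_nonneg hp0.le (by norm_num))
      (ENNReal.rpow_ne_top_of_nonneg hp0.le enorm_ne_top)
  calc nrm p U (fun x => f x - a * φ x)
      ≤ ∫⁻ x, (2 ^ p * (‖f x‖ₑ ^ p * U x) + 2 ^ p * ‖a‖ₑ ^ p * (‖φ x‖ₑ ^ p * U x)) :=
        lintegral_mono h1
    _ = 2 ^ p * nrm p U f + 2 ^ p * ‖a‖ₑ ^ p * nrm p U φ := by
        rw [lintegral_add_left' ((nrm_meas hp0 hU hf).const_mul _),
          lintegral_const_mul' _ _ (ENNReal.rpow_ne_top_of_nonneg hp0.le (by norm_num)),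
          lintegral_const_mul' _ _ h2p]
        rfl
    _ = _ := by ring

theorem integrable_of_bump {φ : ℝ → ℝ} (h1 : ∃ L : ℝ≥0, LipschitzWith L φ)
    (h2 : HasCompactSupport φ) : Integrable (fun x => (φ x : ℂ)) := by
  obtain ⟨L, hL⟩ := h1
  exact (hL.continuous.integrable_of_hasCompactSupport h2).ofReal

theorem lip_ofReal {φ : ℝ → ℝ} {L : ℝ≥0} (h1 : LipschitzWith L φ) :
    LipschitzWith L (fun x => (φ x : ℂ)) := by
  refine LipschitzWith.of_dist_le_mul fun x y => ?_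
  rw [dist_eq_norm, ← Complex.ofReal_sub, Complex.norm_real, ← dist_eq_norm]
  exact h1.dist_le_mul x y

theorem norm_ofReal_sub (x y : ℝ) : ‖(x : ℂ) - (y : ℂ)‖ = |x - y| := by
  rw [← Complex.ofReal_sub, Complex.norm_real, Real.norm_eq_abs]

theorem inv_pi_le_one : 1 / Real.pi ≤ 1 := by
  rw [div_le_one Real.pi_pos]; linarith [Real.pi_gt_three]

theorem norm_inv_pi : ‖1 / (Real.pi : ℂ)‖ = 1 / Real.pi := by
  rw [norm_div, norm_one, Complex.norm_real, Real.norm_eq_abs, abs_of_pos Real.pi_pos]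

/-! ### singularity at infinity -/

theorem strong_of_inf (hp : 1 < p) (hU : IsWeight U)
    (hinf : ∀ M : ℕ, ∫⁻ x in {x : ℝ | (M : ℝ) < |x|}, sig p U x = ∞) (hA : Admissible p U) :
    Strong p U := by
  have hp0 : 0 < p := by linarith
  obtain ⟨C, hC⟩ := hA
  refine ⟨C * 2 ^ p, fun f g hf hg => ?_⟩
  have hb : ∀ m : ℕ, ∃ φ : ℝ → ℝ, (∀ x, 0 ≤ φ x) ∧ (∃ L : ℝ≥0, LipschitzWith L φ) ∧
      HasCompactSupport φ ∧ (∀ x, φ x ≠ 0 → x ∈ {x : ℝ | (m : ℝ) < |x|}) ∧ ∫ x, φ x = 1 ∧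
      nrm p U (fun x => (φ x : ℂ)) ≤ 1 / ((m : ℝ≥0∞) + 1) := fun m =>
    exists_bump hp hU (isOpen_lt continuous_const continuous_abs) (hinf m) _ (by
      rw [ENNReal.div_pos_iff]
      refine ⟨one_ne_zero, ENNReal.add_ne_top.2 ⟨ENNReal.natCast_ne_top m, ENNReal.one_ne_top⟩⟩)
  choose φ h0 hL hcs hsup hI hn using hb
  choose L hL using hL
  set φc : ℕ → ℝ → ℂ := fun m x => (φ m x : ℂ) with hφc
  have hφi : ∀ m, Integrable (φc m) := fun m => integrable_of_bump ⟨L m, hL m⟩ (hcs m)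
  set a : ℂ := ∫ x, f x with ha
  have hφ1 : ∀ m, ∫ x, φc m x = 1 := by
    intro m
    simp only [hφc]
    rw [integral_complex_ofReal, hI]; simp
  -- the approximations
  have hlim : ∀ x, Tendsto (fun m => lipH (φc m) x) atTop (𝓝 0) := by
    intro x
    refine squeeze_zero_norm' (a := fun m : ℕ => (1 : ℝ) / ((m : ℝ) - |x|)) ?_ ?_
    · obtain ⟨N, hN⟩ := exists_nat_gt (|x| + 1)
      filter_upwards [eventually_ge_atTop N] with m hm
      have hm' : |x| + 1 < m := lt_of_lt_of_le hN (by exact_mod_cast hm)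
      have hpos : 0 < (m : ℝ) - |x| := by linarith
      have hz : ∀ y, |y - x| < (m : ℝ) - |x| → φc m y = 0 := by
        intro y hy
        by_contra hne
        have hne' : φ m y ≠ 0 := fun h => hne (by simp only [hφc, h, Complex.ofReal_zero])
        have h1 : (m : ℝ) < |y| := hsup m y hne'
        have h2 : |y| ≤ |y - x| + |x| := by
          have := abs_add_le (y - x) x; rwa [sub_add_cancel] at this
        linarith
      have e := (lipH_pv (lip_ofReal (hL m)) (hφi m) x).unique (hasPV_of_zero hpos hz)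
      rw [e, norm_mul, norm_inv_pi]
      have h2 : ‖∫ y, φc m y / ((x : ℂ) - (y : ℂ))‖ ≤ ∫ y, φ m y * (1 / ((m : ℝ) - |x|)) := by
        refine norm_integral_le_of_norm_le ((hφi m).re.mul_const _) ?_
        refine Eventually.of_forall fun y => ?_
        rw [norm_div, norm_ofReal_sub]
        simp only [hφc]
        rw [Complex.norm_real, Real.norm_eq_abs, abs_of_nonneg (h0 m y)]
        by_cases hy : |y - x| < (m : ℝ) - |x|
        · have : φ m y = 0 := by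
            have := hz y hy
            simpa [hφc] using this
          rw [this]; simp
        · push Not at hy
          rw [abs_sub_comm, div_eq_mul_one_div]
          exact mul_le_mul_of_nonneg_left (one_div_le_one_div_of_le hpos hy) (h0 m y)
      rw [integral_mul_const, hI, one_mul] at h2
      calc 1 / Real.pi * _ ≤ 1 * (1 / ((m : ℝ) - |x|)) :=
            mul_le_mul inv_pi_le_one h2 (norm_nonneg _) zero_le_one
        _ = _ := one_mul _
    · simp_rw [one_div]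
      refine tendsto_inv_atTop_zero.comp ?_
      exact tendsto_atTop_add_const_right _ _ tendsto_natCast_atTop_atTop
  have hstep : ∀ m, nrm p U (fun x => g x - a * lipH (φc m) x)
      ≤ C * (2 ^ p * (nrm p U f + ‖a‖ₑ ^ p * (1 / ((m : ℝ≥0∞) + 1)))) := by
    intro m
    have h1 := hC (fun x => f x - a * φc m x) (fun x => g x - a * lipH (φc m) x)
      (hf.sub ((hφi m).const_mul a)) ?_ ?_
    · refine h1.trans ?_
      gcongr
      refine (nrm_sub_le hp hU.meas hf.aestronglyMeasurable.aemeasurable a).trans ?_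
      gcongr
      exact hn m
    · rw [integral_sub hf ((hφi m).const_mul a), integral_const_mul, hφ1, mul_one, sub_self]
    · filter_upwards [hg] with x hx
      exact hx.sub_smul hf (hφi m) (lipH_pv (lip_ofReal (hL m)) (hφi m) x) a
  have hgm : AEMeasurable g := IsHilbert.aemeasurable hf hg
  have hφm : ∀ m, AEMeasurable (lipH (φc m)) := fun m =>
    IsHilbert.aemeasurable (hφi m) (Eventually.of_forall fun x =>
      lipH_pv (lip_ofReal (hL m)) (hφi m) x)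
  refine nrm_le_of_tendsto (b := ((C * 2 ^ p : ℝ≥0) : ℝ≥0∞) * nrm p U f) hp0 hU.meas
    (fun m => hgm.sub ((hφm m).const_mul a)) (Eventually.of_forall fun x => ?_) ?_ hstep
  · have := (tendsto_const_nhds (x := g x)).sub ((hlim x).const_mul a)
    rwa [mul_zero, sub_zero] at this
  · have h1 : Tendsto (fun m : ℕ => (1 : ℝ≥0∞) / ((m : ℝ≥0∞) + 1)) atTop (𝓝 0) := by
      have h2 : Tendsto (fun m : ℕ => ((m + 1 : ℕ) : ℝ≥0∞)⁻¹) atTop (𝓝 0) :=
        (tendsto_add_atTop_iff_nat 1).2 ENNReal.tendsto_inv_nat_nhds_zero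
      refine h2.congr fun m => ?_
      rw [one_div]; push_cast; rfl
    have hap : ‖a‖ₑ ^ p ≠ ∞ := ENNReal.rpow_ne_top_of_nonneg hp0.le enorm_ne_top
    have h2 := ENNReal.Tendsto.const_mul (a := ‖a‖ₑ ^ p) h1 (Or.inr hap)
    rw [mul_zero] at h2
    have h3 := (tendsto_const_nhds (x := nrm p U f)).add h2
    rw [add_zero] at h3
    have h2p : (2 : ℝ≥0∞) ^ p ≠ ∞ := ENNReal.rpow_ne_top_of_nonneg hp0.le (by norm_num)
    have h4 := ENNReal.Tendsto.const_mul (a := (2 : ℝ≥0∞) ^ p) h3 (Or.inr h2p)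
    have h5 := ENNReal.Tendsto.const_mul (a := (C : ℝ≥0∞)) h4 (Or.inr ENNReal.coe_ne_top)
    have e : ((C * 2 ^ p : ℝ≥0) : ℝ≥0∞) * nrm p U f = C * (2 ^ p * nrm p U f) := by
      rw [ENNReal.coe_mul, ENNReal.coe_rpow_of_nonneg _ hp0.le]
      push_cast
      ring
    rw [e]
    exact h5

end Pool.Agent.N246.MZ
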