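import Mathlib

/-! Weights for the Hilbert transform on functions of mean zero: definitions. -/

set_option autoImplicit false
open MeasureTheory Set Filter Topology
open scoped ENNReal NNReal

namespace Pool.Agent.N246.MZ

/-- The principal value integral `(1/π) lim_{δ ↓ 0} ∫_{|y - x| > δ} f(y) / (x - y) dy` exists and
equals `v`. -/
def HasPV (f : ℝ → ℂ) (x : ℝ) (v : ℂ) : Prop :=
  Tendsto (fun δ : ℝ => (1 / (Real.pi : ℂ)) *
    ∫ y in {y : ℝ | δ < |y - x|}, f y / ((x : ℂ) - (y : ℂ))) (𝓝[>] 0) (𝓝 v)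

/-- `g` is (almost everywhere) the Hilbert transform of `f`. -/
def IsHilbert (f g : ℝ → ℂ) : Prop := ∀ᵐ x : ℝ, HasPV f x (g x)

/-- `U` is a weight on the line: measurable, locally integrable, not almost everywhere zero. -/
structure IsWeight (U : ℝ → ℝ≥0) : Prop where
  /-- measurable -/
  meas : Measurable U
  /-- locally integrable -/
  loc : ∀ R : ℝ, ∫⁻ x in Icc (-R) R, (U x : ℝ≥0∞) < ∞
  /-- not almost everywhere zero -/
  ne_zero : ¬ (∀ᵐ x : ℝ, U x = 0)

/-- `∫ |f|^p U`. -/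
noncomputable def nrm (p : ℝ) (U : ℝ → ℝ≥0) (f : ℝ → ℂ) : ℝ≥0∞ := ∫⁻ x, ‖f x‖ₑ ^ p * U x

/-- The inequality `∫ |Hf|^p U ≤ C ∫ |f|^p U` for all integrable `f`. -/
def Strong (p : ℝ) (U : ℝ → ℝ≥0) : Prop :=
  ∃ C : ℝ≥0, ∀ f g : ℝ → ℂ, Integrable f → IsHilbert f g → nrm p U g ≤ C * nrm p U f

/-- The inequality `∫ |Hf|^p U ≤ C ∫ |f|^p U` for all integrable `f` of mean zero. -/
def Admissible (p : ℝ) (U : ℝ → ℝ≥0) : Prop :=
  ∃ C : ℝ≥0, ∀ f g : ℝ → ℂ, Integrable f → ∫ x, f x = 0 → IsHilbert f g →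
    nrm p U g ≤ C * nrm p U f

/-- The weight `|x - ζ|^{-p} U(x)`. -/
noncomputable def divW (p : ℝ) (ζ : ℂ) (U : ℝ → ℝ≥0) (x : ℝ) : ℝ≥0 := ‖(x : ℂ) - ζ‖₊ ^ (-p) * U x

/-! ### truncated integrals -/

/-- truncated integral -/
noncomputable def tr (f : ℝ → ℂ) (x δ : ℝ) : ℂ :=
  ∫ y in {y : ℝ | δ < |y - x|}, f y / ((x : ℂ) - (y : ℂ))

theorem hasPV_iff {f : ℝ → ℂ} {x : ℝ} {v : ℂ} :
    HasPV f x v ↔ Tendsto (fun δ : ℝ => tr f x δ) (𝓝[>] 0) (𝓝 (Real.pi * v)) := by
  have hpi : (Real.pi : ℂ) ≠ 0 := by exact_mod_cast Real.pi_pos.ne'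
  constructor
  · intro h
    have := h.const_mul (Real.pi : ℂ)
    refine this.congr fun δ => ?_
    show (Real.pi : ℂ) * (1 / (Real.pi : ℂ) * tr f x δ) = tr f x δ
    field_simp
  · intro h
    have := h.const_mul (1 / (Real.pi : ℂ))
    have e : 1 / (Real.pi : ℂ) * (Real.pi * v) = v := by field_simp
    rw [e] at this
    exact this

theorem meas_set (x δ : ℝ) : MeasurableSet {y : ℝ | δ < |y - x|} :=
  measurableSet_lt measurable_const (by fun_prop)

theorem tr_int {f : ℝ → ℂ} (hf : Integrable f) {x δ : ℝ} (hδ : 0 < δ) :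
    IntegrableOn (fun y : ℝ => f y / ((x : ℂ) - (y : ℂ))) {y : ℝ | δ < |y - x|} := by
  have h1 : Integrable (fun y => δ⁻¹ * ‖f y‖) := hf.norm.const_mul _
  refine (h1.integrableOn (s := {y : ℝ | δ < |y - x|})).mono' ?_ ?_
  · refine (hf.aestronglyMeasurable.restrict).mul ?_
    exact (Measurable.inv (by fun_prop)).aestronglyMeasurable
  · refine (ae_restrict_iff' (meas_set x δ)).2 (Eventually.of_forall fun y hy => ?_)
    have hy' : δ < |y - x| := hy
    rw [norm_div]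
    have e : ‖(x : ℂ) - (y : ℂ)‖ = |y - x| := by
      rw [← Complex.ofReal_sub, Complex.norm_real, Real.norm_eq_abs, abs_sub_comm]
    rw [e, div_eq_inv_mul]
    exact mul_le_mul_of_nonneg_right (inv_anti₀ hδ hy'.le) (norm_nonneg _)

theorem HasPV.sub_smul {f φ : ℝ → ℂ} {x : ℝ} {v w : ℂ} (hf : Integrable f) (hφ : Integrable φ)
    (h1 : HasPV f x v) (h2 : HasPV φ x w) (a : ℂ) :
    HasPV (fun y => f y - a * φ y) x (v - a * w) := by
  rw [hasPV_iff] at *
  have h := h1.sub (h2.const_mul a)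
  have e : (Real.pi : ℂ) * v - a * (Real.pi * w) = Real.pi * (v - a * w) := by ring
  rw [e] at h
  refine h.congr' ?_
  filter_upwards [self_mem_nhdsWithin] with δ hδ
  have hδ' : 0 < δ := hδ
  unfold tr
  rw [← integral_const_mul, ← integral_sub (tr_int hf hδ') ((tr_int hφ hδ').const_mul a)]
  refine integral_congr_ae (Eventually.of_forall fun y => ?_)
  simp only
  ring

theorem HasPV.unique {f : ℝ → ℂ} {x : ℝ} {v w : ℂ} (h1 : HasPV f x v) (h2 : HasPV f x w) :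
    v = w := tendsto_nhds_unique h1 h2

/-- principal value off the support -/
theorem hasPV_of_zero {f : ℝ → ℂ} {x ρ : ℝ} (hρ : 0 < ρ)
    (h : ∀ y, |y - x| < ρ → f y = 0) :
    HasPV f x ((1 / (Real.pi : ℂ)) * ∫ y, f y / ((x : ℂ) - (y : ℂ))) := by
  unfold HasPV
  refine Tendsto.const_mul _ ?_
  refine tendsto_const_nhds.congr' ?_
  filter_upwards [Ioo_mem_nhdsGT hρ] with δ hδ
  rw [setIntegral_eq_integral_of_forall_compl_eq_zero]
  intro y hy
  rw [mem_ofPred_eq, not_lt] at hy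
  rw [h y (lt_of_le_of_lt hy hδ.2), zero_div]

/-- multiplication by `y - ζ` -/
theorem HasPV.mul_sub {f : ℝ → ℂ} {x : ℝ} {v : ℂ} (ζ : ℂ) (hf : Integrable f)
    (h1 : HasPV f x v) :
    HasPV (fun y => ((y : ℂ) - ζ) * f y) x
      (((x : ℂ) - ζ) * v - (1 / (Real.pi : ℂ)) * ∫ y, f y) := by
  have hpi : (Real.pi : ℂ) ≠ 0 := by exact_mod_cast Real.pi_pos.ne'
  rw [hasPV_iff] at *
  have h2 : Tendsto (fun δ : ℝ => ∫ y in {y : ℝ | δ < |y - x|}, f y) (𝓝[>] 0) (𝓝 (∫ y, f y)) := by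
    have e : ∀ δ : ℝ, ∫ y in {y : ℝ | δ < |y - x|}, f y
        = ∫ y, indicator {y : ℝ | δ < |y - x|} f y :=
      fun δ => (integral_indicator (meas_set x δ)).symm
    simp_rw [e]
    refine tendsto_integral_filter_of_dominated_convergence (fun y => ‖f y‖) ?_ ?_ hf.norm ?_
    · exact Eventually.of_forall fun δ => hf.aestronglyMeasurable.indicator (meas_set x δ)
    · exact Eventually.of_forall fun δ => Eventually.of_forall fun y =>
        norm_indicator_le_norm_self _ _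
    · have hz : ∀ᵐ y : ℝ, y ≠ x := by
        rw [ae_iff]; simp
      filter_upwards [hz] with y hy
      refine tendsto_const_nhds.congr' ?_
      have : Ioo (0:ℝ) |y - x| ∈ 𝓝[>] (0:ℝ) := Ioo_mem_nhdsGT (abs_pos.2 (sub_ne_zero.2 hy))
      filter_upwards [this] with δ hδ
      rw [indicator_of_mem (show y ∈ {y : ℝ | δ < |y - x|} from hδ.2)]
  have h := (h1.const_mul ((x : ℂ) - ζ)).sub h2
  have e : ((x : ℂ) - ζ) * (Real.pi * v) - ∫ y, f y
      = Real.pi * (((x : ℂ) - ζ) * v - (1 / (Real.pi : ℂ)) * ∫ y, f y) := by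
    field_simp
  rw [e] at h
  refine h.congr' ?_
  filter_upwards [self_mem_nhdsWithin] with δ hδ
  have hδ' : 0 < δ := hδ
  unfold tr
  rw [← integral_const_mul, ← integral_sub ((tr_int hf hδ').const_mul _) hf.integrableOn]
  refine setIntegral_congr_fun (meas_set x δ) fun y hy => ?_
  have hy' : δ < |y - x| := hy
  have hne : (x : ℂ) - (y : ℂ) ≠ 0 := by
    rw [← Complex.ofReal_sub]
    have : x - y ≠ 0 := by
      intro h0
      rw [abs_sub_comm, h0, abs_zero] at hy'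
      linarith
    exact_mod_cast this
  simp only
  field_simp
  ring

/-- division by `y - ζ` -/
theorem HasPV.of_mul_sub {f : ℝ → ℂ} {x : ℝ} {w : ℂ} (ζ : ℂ) (hx : (x : ℂ) ≠ ζ)
    (hf : Integrable f)
    (hh : Integrable fun y : ℝ => ((y : ℂ) - ζ) * f y)
    (h1 : HasPV (fun y => ((y : ℂ) - ζ) * f y) x w) :
    HasPV f x ((w + (1 / (Real.pi : ℂ)) * ∫ y, f y) / ((x : ℂ) - ζ)) := by
  have hpi : (Real.pi : ℂ) ≠ 0 := by exact_mod_cast Real.pi_pos.ne'
  have hxz : (x : ℂ) - ζ ≠ 0 := sub_ne_zero.2 hx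
  rw [hasPV_iff] at *
  have h2 : Tendsto (fun δ : ℝ => ∫ y in {y : ℝ | δ < |y - x|}, f y) (𝓝[>] 0) (𝓝 (∫ y, f y)) := by
    have e : ∀ δ : ℝ, ∫ y in {y : ℝ | δ < |y - x|}, f y
        = ∫ y, indicator {y : ℝ | δ < |y - x|} f y :=
      fun δ => (integral_indicator (meas_set x δ)).symm
    simp_rw [e]
    refine tendsto_integral_filter_of_dominated_convergence (fun y => ‖f y‖) ?_ ?_ hf.norm ?_
    · exact Eventually.of_forall fun δ => hf.aestronglyMeasurable.indicator (meas_set x δ)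
    · exact Eventually.of_forall fun δ => Eventually.of_forall fun y =>
        norm_indicator_le_norm_self _ _
    · have hz : ∀ᵐ y : ℝ, y ≠ x := by
        rw [ae_iff]; simp
      filter_upwards [hz] with y hy
      refine tendsto_const_nhds.congr' ?_
      have : Ioo (0:ℝ) |y - x| ∈ 𝓝[>] (0:ℝ) := Ioo_mem_nhdsGT (abs_pos.2 (sub_ne_zero.2 hy))
      filter_upwards [this] with δ hδ
      rw [indicator_of_mem (show y ∈ {y : ℝ | δ < |y - x|} from hδ.2)]
  have h := (h1.add h2).const_mul ((x : ℂ) - ζ)⁻¹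
  have e : ((x : ℂ) - ζ)⁻¹ * (Real.pi * w + ∫ y, f y)
      = Real.pi * ((w + (1 / (Real.pi : ℂ)) * ∫ y, f y) / ((x : ℂ) - ζ)) := by
    field_simp
  rw [e] at h
  refine h.congr' ?_
  filter_upwards [self_mem_nhdsWithin] with δ hδ
  have hδ' : 0 < δ := hδ
  unfold tr
  rw [← integral_add (tr_int hh hδ') hf.integrableOn, ← integral_const_mul]
  refine setIntegral_congr_fun (meas_set x δ) fun y hy => ?_
  have hy' : δ < |y - x| := hy
  have hne : (x : ℂ) - (y : ℂ) ≠ 0 := by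
    rw [← Complex.ofReal_sub]
    have : x - y ≠ 0 := by
      intro h0
      rw [abs_sub_comm, h0, abs_zero] at hy'
      linarith
    exact_mod_cast this
  field_simp
  ring

end Pool.Agent.N246.MZ
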