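import Pool.Agent.N246.MZ.Defs

set_option autoImplicit false
open MeasureTheory Set Filter Topology
open scoped ENNReal NNReal

namespace Pool.Agent.N246.MZ

theorem meas_le (x : ℝ) : MeasurableSet {y : ℝ | |y - x| ≤ 1} :=
  measurableSet_le (by fun_prop) measurable_const

theorem odd_zero (x δ : ℝ) :
    ∫ y in {y : ℝ | δ < |y - x| ∧ |y - x| ≤ 1}, (1 : ℂ) / ((x : ℂ) - (y : ℂ)) = 0 := by
  have hms : MeasurableSet {y : ℝ | δ < |y - x| ∧ |y - x| ≤ 1} :=
    (meas_set x δ).inter (meas_le x)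
  rw [← integral_indicator hms]
  set F : ℝ → ℂ := indicator {y : ℝ | δ < |y - x| ∧ |y - x| ≤ 1}
    (fun y => (1 : ℂ) / ((x : ℂ) - (y : ℂ))) with hF
  have h1 : ∫ y, F y = ∫ t, F (x + t) := (integral_add_left_eq_self F x).symm
  have h2 : ∫ t, F (x + t) = ∫ t, F (x - t) := by
    rw [← integral_neg_eq_self (fun t => F (x + t))]
    rfl
  have h3 : ∀ t, F (x - t) = - F (x + t) := by
    intro t
    simp only [hF]
    by_cases ht : δ < |t| ∧ |t| ≤ 1
    · rw [indicator_of_mem, indicator_of_mem]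
      · push_cast
        rw [show (x : ℂ) - (x - t) = t by ring, show (x : ℂ) - (x + t) = -t by ring]
        rw [div_neg, neg_neg]
      · rw [mem_ofPred_eq, add_sub_cancel_left]; exact ht
      · rw [mem_ofPred_eq, show x - t - x = -t by ring, abs_neg]; exact ht
    · rw [indicator_of_notMem, indicator_of_notMem, neg_zero]
      · rw [mem_ofPred_eq, add_sub_cancel_left]; exact ht
      · rw [mem_ofPred_eq, show x - t - x = -t by ring, abs_neg]; exact ht
  have h4 : ∫ t, F (x - t) = - ∫ t, F (x + t) := by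
    rw [← integral_neg]
    exact integral_congr_ae (Eventually.of_forall h3)
  rw [h1]
  have h5 : ∫ t, F (x + t) = - ∫ t, F (x + t) := h2.trans h4
  exact self_eq_neg.1 h5

theorem one_div_int (x : ℝ) {δ : ℝ} (hδ : 0 < δ) :
    IntegrableOn (fun y : ℝ => (1 : ℂ) / ((x : ℂ) - (y : ℂ)))
      {y : ℝ | δ < |y - x| ∧ |y - x| ≤ 1} := by
  have hms : MeasurableSet {y : ℝ | δ < |y - x| ∧ |y - x| ≤ 1} :=
    (meas_set x δ).inter (meas_le x)
  have hfin : volume {y : ℝ | δ < |y - x| ∧ |y - x| ≤ 1} ≠ ∞ := by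
    refine ne_of_lt (lt_of_le_of_lt (measure_mono (t := Icc (x - 1) (x + 1)) ?_) ?_)
    · intro y hy
      have := abs_le.1 hy.2
      exact ⟨by linarith [this.1], by linarith [this.2]⟩
    · rw [Real.volume_Icc]; exact ENNReal.ofReal_lt_top
  refine Measure.integrableOn_of_bounded hfin
    ((Measurable.const_div (by fun_prop) _).aestronglyMeasurable) (M := δ⁻¹) ?_
  refine (ae_restrict_iff' hms).2 (Eventually.of_forall fun y hy => ?_)
  have e : ‖(x : ℂ) - (y : ℂ)‖ = |y - x| := by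
    rw [← Complex.ofReal_sub, Complex.norm_real, Real.norm_eq_abs, abs_sub_comm]
  rw [norm_div, norm_one, e, one_div]
  exact inv_anti₀ hδ hy.1.le

/-- the Hilbert transform of a Lipschitz function of compact support -/
noncomputable def lipH (φ : ℝ → ℂ) (x : ℝ) : ℂ :=
  (1 / (Real.pi : ℂ)) * ∫ y, (φ y - if |y - x| ≤ 1 then φ x else 0) / ((x : ℂ) - (y : ℂ))

theorem lip_bound {φ : ℝ → ℂ} {L : ℝ≥0} (hL : LipschitzWith L φ) (x y : ℝ) :
    ‖(φ y - if |y - x| ≤ 1 then φ x else 0) / ((x : ℂ) - (y : ℂ))‖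
      ≤ indicator (Icc (x - 1) (x + 1)) (fun _ => (L : ℝ)) y + ‖φ y‖ := by
  have e : ‖(x : ℂ) - (y : ℂ)‖ = |y - x| := by
    rw [← Complex.ofReal_sub, Complex.norm_real, Real.norm_eq_abs, abs_sub_comm]
  rw [norm_div, e]
  by_cases h1 : |y - x| ≤ 1
  · rw [if_pos h1, indicator_of_mem]
    · have h2 : ‖φ y - φ x‖ ≤ L * |y - x| := by
        have := hL.dist_le_mul y x
        rwa [dist_eq_norm, Real.dist_eq] at this
      have h3 : ‖φ y - φ x‖ / |y - x| ≤ L := by
        by_cases h0 : |y - x| = 0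
        · rw [h0, div_zero]; exact L.coe_nonneg
        · rw [div_le_iff₀ (lt_of_le_of_ne (abs_nonneg _) (Ne.symm h0))]
          exact h2
      linarith [norm_nonneg (φ y)]
    · have := abs_le.1 h1
      exact ⟨by linarith [this.1], by linarith [this.2]⟩
  · rw [if_neg h1, sub_zero]
    push Not at h1
    have h2 : ‖φ y‖ / |y - x| ≤ ‖φ y‖ := div_le_self (norm_nonneg _) h1.le
    have h3 : 0 ≤ indicator (Icc (x - 1) (x + 1)) (fun _ => (L : ℝ)) y :=
      indicator_nonneg (fun _ _ => L.coe_nonneg) _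
    linarith

theorem lip_dom_int {φ : ℝ → ℂ} (L : ℝ≥0) (hφ : Integrable φ) (x : ℝ) :
    Integrable (fun y => indicator (Icc (x - 1) (x + 1)) (fun _ => (L : ℝ)) y + ‖φ y‖) := by
  refine Integrable.add ?_ hφ.norm
  rw [integrable_indicator_iff measurableSet_Icc]
  exact integrableOn_const (by rw [Real.volume_Icc]; exact ENNReal.ofReal_lt_top.ne)

theorem lip_int {φ : ℝ → ℂ} {L : ℝ≥0} (hL : LipschitzWith L φ) (hφ : Integrable φ) (x : ℝ) :
    Integrable (fun y => (φ y - if |y - x| ≤ 1 then φ x else 0) / ((x : ℂ) - (y : ℂ))) := by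
  refine (lip_dom_int L hφ x).mono' ?_ (Eventually.of_forall (lip_bound hL x))
  refine Measurable.aestronglyMeasurable ?_
  refine Measurable.div ?_ (by fun_prop)
  refine hL.continuous.measurable.sub (Measurable.ite ?_ measurable_const measurable_const)
  exact measurableSet_le (by fun_prop) measurable_const

theorem lipH_bound {φ : ℝ → ℂ} {L : ℝ≥0} (hL : LipschitzWith L φ) (hφ : Integrable φ) (x : ℝ) :
    ‖lipH φ x‖ ≤ 2 * L + ∫ y, ‖φ y‖ := by
  have h1 : ‖∫ y, (φ y - if |y - x| ≤ 1 then φ x else 0) / ((x : ℂ) - (y : ℂ))‖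
      ≤ ∫ y, (indicator (Icc (x - 1) (x + 1)) (fun _ => (L : ℝ)) y + ‖φ y‖) :=
    norm_integral_le_of_norm_le (lip_dom_int L hφ x) (Eventually.of_forall (lip_bound hL x))
  have h2 : ∫ y, (indicator (Icc (x - 1) (x + 1)) (fun _ => (L : ℝ)) y + ‖φ y‖)
      = 2 * L + ∫ y, ‖φ y‖ := by
    rw [integral_add _ hφ.norm, integral_indicator measurableSet_Icc, setIntegral_const,
      measureReal_def, Real.volume_Icc, show x + 1 - (x - 1) = 2 by ring,
      ENNReal.toReal_ofReal (by norm_num), smul_eq_mul]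
    rw [integrable_indicator_iff measurableSet_Icc]
    exact integrableOn_const (by rw [Real.volume_Icc]; exact ENNReal.ofReal_lt_top.ne)
  rw [h2] at h1
  rw [lipH, norm_mul, norm_div, norm_one, Complex.norm_real, Real.norm_eq_abs,
    abs_of_pos Real.pi_pos]
  have h3 : 1 / Real.pi ≤ 1 := by
    rw [div_le_one Real.pi_pos]; linarith [Real.pi_gt_three]
  calc 1 / Real.pi * _ ≤ 1 * (2 * L + ∫ y, ‖φ y‖) :=
        mul_le_mul h3 h1 (norm_nonneg _) zero_le_one
    _ = _ := one_mul _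

theorem lipH_pv {φ : ℝ → ℂ} {L : ℝ≥0} (hL : LipschitzWith L φ) (hφ : Integrable φ) (x : ℝ) :
    HasPV φ x (lipH φ x) := by
  unfold HasPV lipH
  refine Tendsto.const_mul _ ?_
  set G : ℝ → ℂ := fun y => (φ y - if |y - x| ≤ 1 then φ x else 0) / ((x : ℂ) - (y : ℂ)) with hG
  have hGi : Integrable G := lip_int hL hφ x
  have hms2 : ∀ δ : ℝ, MeasurableSet {y : ℝ | δ < |y - x| ∧ |y - x| ≤ 1} := fun δ =>
    (meas_set x δ).inter (meas_le x)
  have h1 : ∀ δ ∈ Ioo (0:ℝ) 1, ∫ y in {y : ℝ | δ < |y - x|}, φ y / ((x : ℂ) - (y : ℂ))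
      = ∫ y in {y : ℝ | δ < |y - x|}, G y := by
    intro δ hδ
    have hK : IntegrableOn (fun y : ℝ => φ x * ((1 : ℂ) / ((x : ℂ) - (y : ℂ))))
        {y : ℝ | δ < |y - x| ∧ |y - x| ≤ 1} := (one_div_int x hδ.1).const_mul _
    have hK' := (integrable_indicator_iff (hms2 δ)).2 hK
    have e1 : ∀ y ∈ {y : ℝ | δ < |y - x|}, φ y / ((x : ℂ) - (y : ℂ))
        = G y + indicator {y : ℝ | δ < |y - x| ∧ |y - x| ≤ 1}
          (fun y : ℝ => φ x * ((1 : ℂ) / ((x : ℂ) - (y : ℂ)))) y := by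
      intro y hy
      by_cases h : |y - x| ≤ 1
      · rw [indicator_of_mem (show y ∈ {y : ℝ | δ < |y - x| ∧ |y - x| ≤ 1} from ⟨hy, h⟩)]
        simp only [hG, if_pos h]; ring
      · rw [indicator_of_notMem (show y ∉ {y : ℝ | δ < |y - x| ∧ |y - x| ≤ 1} from
          fun hh => h hh.2)]
        simp only [hG, if_neg h]; ring
    rw [setIntegral_congr_fun (meas_set x δ) e1, integral_add hGi.integrableOn hK'.integrableOn,
      setIntegral_indicator (hms2 δ)]
    have e2 : {y : ℝ | δ < |y - x|} ∩ {y : ℝ | δ < |y - x| ∧ |y - x| ≤ 1}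
        = {y : ℝ | δ < |y - x| ∧ |y - x| ≤ 1} := by
      ext z; constructor
      · intro h; exact h.2
      · intro h; exact ⟨h.1, h⟩
    rw [e2, integral_const_mul, odd_zero, mul_zero, add_zero]
  have h2 : Tendsto (fun δ : ℝ => ∫ y in {y : ℝ | δ < |y - x|}, G y) (𝓝[>] 0) (𝓝 (∫ y, G y)) := by
    have e : ∀ δ : ℝ, ∫ y in {y : ℝ | δ < |y - x|}, G y
        = ∫ y, indicator {y : ℝ | δ < |y - x|} G y :=
      fun δ => (integral_indicator (meas_set x δ)).symm
    simp_rw [e]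
    refine tendsto_integral_filter_of_dominated_convergence (fun y => ‖G y‖) ?_ ?_ hGi.norm ?_
    · exact Eventually.of_forall fun δ => hGi.aestronglyMeasurable.indicator (meas_set x δ)
    · exact Eventually.of_forall fun δ => Eventually.of_forall fun y =>
        norm_indicator_le_norm_self _ _
    · have hz : ∀ᵐ y : ℝ, y ≠ x := by
        rw [ae_iff]; simp
      filter_upwards [hz] with y hy
      refine tendsto_const_nhds.congr' ?_
      have : Ioo (0:ℝ) |y - x| ∈ 𝓝[>] (0:ℝ) := Ioo_mem_nhdsGT (abs_pos.2 (sub_ne_zero.2 hy))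
      filter_upwards [this] with δ hδ
      rw [indicator_of_mem (show y ∈ {y : ℝ | δ < |y - x|} from hδ.2)]
  refine h2.congr' ?_
  filter_upwards [Ioo_mem_nhdsGT (zero_lt_one : (0:ℝ) < 1)] with δ hδ
  exact (h1 δ hδ).symm

/-- the Hilbert transform is measurable -/
theorem IsHilbert.aemeasurable {f g : ℝ → ℂ} (hf : Integrable f) (h : IsHilbert f g) :
    AEMeasurable g := by
  have hpi : (Real.pi : ℂ) ≠ 0 := by exact_mod_cast Real.pi_pos.ne'
  have h1 : ∀ n : ℕ, AEMeasurable (fun x : ℝ => (1 / (Real.pi : ℂ)) * tr f x (1 / ((n : ℝ) + 1))) := by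
    intro n
    refine AEMeasurable.const_mul ?_ _
    have e : ∀ x : ℝ, tr f x (1 / ((n : ℝ) + 1)) = ∫ y, indicator
        {p : ℝ × ℝ | 1 / ((n : ℝ) + 1) < |p.2 - p.1|}
        (fun p : ℝ × ℝ => f p.2 / ((p.1 : ℂ) - (p.2 : ℂ))) (x, y) := by
      intro x
      unfold tr
      rw [← integral_indicator (meas_set x _)]
      rfl
    simp_rw [e]
    refine AEStronglyMeasurable.aemeasurable ?_
    refine AEStronglyMeasurable.integral_prod_right' (f := indicator
        {p : ℝ × ℝ | 1 / ((n : ℝ) + 1) < |p.2 - p.1|}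
        (fun p : ℝ × ℝ => f p.2 / ((p.1 : ℂ) - (p.2 : ℂ)))) ?_
    refine AEStronglyMeasurable.indicator ?_ (measurableSet_lt measurable_const (by fun_prop))
    refine (hf.aestronglyMeasurable.comp_snd).mul ?_
    exact (Measurable.inv (by fun_prop)).aestronglyMeasurable
  refine aemeasurable_of_tendsto_metrizable_ae atTop h1 ?_
  filter_upwards [h] with x hx
  have : Tendsto (fun n : ℕ => 1 / ((n : ℝ) + 1)) atTop (𝓝[>] 0) := by
    refine tendsto_nhdsWithin_iff.2 ⟨tendsto_one_div_add_atTop_nhds_zero_nat, ?_⟩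
    exact Eventually.of_forall fun n => by
      show (0:ℝ) < 1 / ((n : ℝ) + 1)
      positivity
  exact hx.comp this

end Pool.Agent.N246.MZ
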