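import Pool.Agent.N246.MZ.Conv

set_option autoImplicit false
open MeasureTheory Set Filter Topology
open scoped ENNReal NNReal

namespace Pool.Agent.N246.MZ

variable {p : ℝ} {U : ℝ → ℝ≥0}

/-- The Muckenhoupt condition `A_p`: the averages of `W` and of `W^{-1/(p-1)}` over bounded
intervals satisfy `⟨W⟩ ⟨W^{-1/(p-1)}⟩^{p-1} ≤ K`. -/
def Ap (p : ℝ) (W : ℝ → ℝ≥0) : Prop :=
  ∃ K : ℝ≥0, ∀ a b : ℝ, a < b →
    ((ENNReal.ofReal (b - a))⁻¹ * ∫⁻ x in Ioo a b, (W x : ℝ≥0∞)) *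
      ((ENNReal.ofReal (b - a))⁻¹ * ∫⁻ x in Ioo a b, (W x : ℝ≥0∞) ^ (-(1 / (p - 1)))) ^ (p - 1)
        ≤ K

/-- Hölder's inequality on a set -/
theorem holder_set (hp : 1 < p) (hU : Measurable U) {S : Set ℝ}
    (hS : ∫⁻ x in S, sig p U x < ∞) {h : ℝ → ℝ≥0∞} (hh : Measurable h) :
    (∫⁻ x in S, h x) ^ p ≤ (∫⁻ x in S, h x ^ p * U x) * (∫⁻ x in S, sig p U x) ^ (p - 1) := by
  have hp0 : 0 < p := by linarith
  have hp1 : 0 < p - 1 := by linarith
  have hpq : p.HolderConjugate (p / (p - 1)) := by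
    rw [Real.holderConjugate_iff]
    refine ⟨hp, ?_⟩
    field_simp
    ring
  have hfin : ∀ᵐ x ∂(volume.restrict S), sig p U x < ∞ := ae_lt_top (sig_meas hU) hS.ne
  have h1 : ∫⁻ x in S, h x = ∫⁻ x in S, ((fun x => h x * (U x : ℝ≥0∞) ^ (1 / p)) *
      (fun x => (U x : ℝ≥0∞) ^ (-(1 / p)))) x := by
    refine lintegral_congr_ae ?_
    filter_upwards [hfin] with x hx
    have hne : (U x : ℝ≥0∞) ≠ 0 := by
      intro h0
      rw [sig, h0, ENNReal.zero_rpow_of_neg (by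
        rw [neg_lt_zero]; positivity)] at hx
      exact lt_irrefl _ hx
    show h x = h x * (U x : ℝ≥0∞) ^ (1 / p) * (U x : ℝ≥0∞) ^ (-(1 / p))
    rw [mul_assoc, ← ENNReal.rpow_add _ _ hne ENNReal.coe_ne_top]
    simp
  have h2 := ENNReal.lintegral_mul_le_Lp_mul_Lq (volume.restrict S) hpq
    (f := fun x => h x * (U x : ℝ≥0∞) ^ (1 / p)) (g := fun x => (U x : ℝ≥0∞) ^ (-(1 / p)))
    (by fun_prop) (by fun_prop)
  rw [← h1] at h2
  have h3 : ∫⁻ x in S, (h x * (U x : ℝ≥0∞) ^ (1 / p)) ^ p = ∫⁻ x in S, h x ^ p * U x := by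
    refine lintegral_congr fun x => ?_
    rw [ENNReal.mul_rpow_of_nonneg _ _ hp0.le, ← ENNReal.rpow_mul, one_div,
      inv_mul_cancel₀ hp0.ne', ENNReal.rpow_one]
  have h4 : ∫⁻ x in S, ((U x : ℝ≥0∞) ^ (-(1 / p))) ^ (p / (p - 1)) = ∫⁻ x in S, sig p U x := by
    refine lintegral_congr fun x => ?_
    rw [sig, ← ENNReal.rpow_mul]
    congr 1
    field_simp
  rw [h3, h4] at h2
  calc (∫⁻ x in S, h x) ^ p
      ≤ ((∫⁻ x in S, h x ^ p * U x) ^ (1 / p) *
          (∫⁻ x in S, sig p U x) ^ (1 / (p / (p - 1)))) ^ p :=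
        ENNReal.rpow_le_rpow h2 hp0.le
    _ = (∫⁻ x in S, h x ^ p * U x) * (∫⁻ x in S, sig p U x) ^ (p - 1) := by
        rw [ENNReal.mul_rpow_of_nonneg _ _ hp0.le, ← ENNReal.rpow_mul, ← ENNReal.rpow_mul]
        congr 2
        · rw [one_div, inv_mul_cancel₀ hp0.ne', ENNReal.rpow_one]
        · field_simp

/-- lower bound for the Hilbert transform of a bump off its support -/
theorem far_lower {φ : ℝ → ℝ} (h0 : ∀ x, 0 ≤ φ x) (hL : ∃ L : ℝ≥0, LipschitzWith L φ)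
    (hcs : HasCompactSupport φ) (hI : ∫ x, φ x = 1) {x D ρ ε : ℝ} (hρ : 0 < ρ) (hρD : ρ ≤ D)
    (hε : |ε| = 1) (h : ∀ y, φ y ≠ 0 → ρ ≤ ε * (x - y) ∧ ε * (x - y) ≤ D) :
    1 / (4 * D) ≤ ‖lipH (fun x => (φ x : ℂ)) x‖ := by
  obtain ⟨L, hL⟩ := hL
  have hD : 0 < D := by linarith
  set ψc : ℝ → ℂ := fun x => (φ x : ℂ) with hψc
  have hψi : Integrable ψc := integrable_of_bump ⟨L, hL⟩ hcs
  have hψr : Integrable φ := hL.continuous.integrable_of_hasCompactSupport hcs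
  have hεε : ε * ε = 1 := by
    rw [← abs_mul_abs_self, hε, one_mul]
  have hz : ∀ y, |y - x| < ρ → ψc y = 0 := by
    intro y hy
    have : φ y = 0 := by
      by_contra hne
      have h3 := (h y hne).1
      have h4 : |ε * (x - y)| = |y - x| := by rw [abs_mul, hε, one_mul, abs_sub_comm]
      have h5 := le_abs_self (ε * (x - y))
      linarith
    simp only [hψc, this, Complex.ofReal_zero]
  have e := (lipH_pv (lip_ofReal hL) hψi x).unique (hasPV_of_zero hρ hz)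
  have e2 : ∫ y, ψc y / ((x : ℂ) - (y : ℂ))
      = ((ε * (∫ y, φ y * (1 / (ε * (x - y)))) : ℝ) : ℂ) := by
    rw [← integral_const_mul, ← integral_complex_ofReal]
    refine integral_congr_ae (Eventually.of_forall fun y => ?_)
    simp only [hψc]
    have h1 : ε * (φ y * (1 / (ε * (x - y)))) = φ y / (x - y) := by
      have hε0 : ε ≠ 0 := by
        intro h; rw [h, abs_zero] at hε; norm_num at hε
      by_cases hxy : x - y = 0
      · rw [hxy]; simp
      · field_simp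
    rw [h1]
    push_cast
    rfl
  have h4 : 1 / D ≤ ∫ y, φ y * (1 / (ε * (x - y))) := by
    have h5 : ∫ y, φ y * (1 / D) = 1 / D := by rw [integral_mul_const, hI, one_mul]
    rw [← h5]
    refine integral_mono (hψr.mul_const _) ?_ fun y => ?_
    · refine (hψr.norm.const_mul (1 / ρ)).mono' ?_ (Eventually.of_forall fun y => ?_)
      · exact hψr.aestronglyMeasurable.mul
          (Measurable.aestronglyMeasurable (by fun_prop))
      · by_cases hy : φ y = 0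
        · simp [hy]
        · have h3 := h y hy
          rw [norm_mul, mul_comm]
          refine mul_le_mul_of_nonneg_right ?_ (norm_nonneg _)
          rw [norm_div, norm_one, Real.norm_eq_abs, abs_of_pos (by linarith [h3.1])]
          exact one_div_le_one_div_of_le hρ h3.1
    · by_cases hy : φ y = 0
      · simp [hy]
      · have h3 := h y hy
        refine mul_le_mul_of_nonneg_left ?_ (h0 y)
        exact one_div_le_one_div_of_le (by linarith [h3.1]) h3.2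
  have hpos : 0 < 1 / D := by positivity
  rw [e, e2, norm_mul, norm_inv_pi, Complex.norm_real, Real.norm_eq_abs, abs_mul, hε, one_mul,
    abs_of_nonneg (by linarith)]
  have h7 : 1 / 4 ≤ 1 / Real.pi := one_div_le_one_div_of_le Real.pi_pos Real.pi_le_four
  calc 1 / (4 * D) = 1 / 4 * (1 / D) := by field_simp
    _ ≤ 1 / Real.pi * ∫ y, φ y * (1 / (ε * (x - y))) :=
      mul_le_mul h7 h4 (by positivity) (by positivity)

/-- the two neighbouring intervals -/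
theorem neighbour (hp : 1 < p) (hU : IsWeight U) {C : ℝ≥0}
    (hC : ∀ f g : ℝ → ℂ, Integrable f → IsHilbert f g → nrm p U g ≤ C * nrm p U f)
    {a b a' b' ε : ℝ} (hab : a < b) (hε : |ε| = 1)
    (h : ∀ x ∈ Ioo a' b', ∃ ρ : ℝ, 0 < ρ ∧ ∀ y ∈ Ioo a b, ρ ≤ ε * (x - y) ∧
      ε * (x - y) ≤ 2 * (b - a)) :
    (∫⁻ x in Ioo a' b', (U x : ℝ≥0∞)) * (∫⁻ x in Ioo a b, sig p U x) ^ (p - 1)
      ≤ C * ENNReal.ofReal (8 * (b - a)) ^ p := by
  have hp0 : 0 < p := by linarith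
  have hp1 : 0 < p - 1 := by linarith
  have hl : 0 < b - a := by linarith
  set w := ∫⁻ x in Ioo a' b', (U x : ℝ≥0∞) with hw
  set s := ∫⁻ x in Ioo a b, sig p U x with hs
  have key : ∀ T0 : ℝ≥0, 0 < T0 → (T0 : ℝ≥0∞) < s →
      w * (T0 : ℝ≥0∞) ^ (p - 1) ≤ C * ENNReal.ofReal (8 * (b - a)) ^ p := by
    intro T0 hT0 hlt
    obtain ⟨φ, h0, hL, hcs, hsup, hI, hn⟩ := exists_bump_lt hp hU isOpen_Ioo hT0 hlt
    obtain ⟨L, hL'⟩ := hL
    have hφi : Integrable (fun x => (φ x : ℂ)) := integrable_of_bump ⟨L, hL'⟩ hcs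
    have h1 := hC (fun x => (φ x : ℂ)) (lipH fun x => (φ x : ℂ)) hφi
      (Eventually.of_forall fun x => lipH_pv (lip_ofReal hL') hφi x)
    have h2 : w ≤ ENNReal.ofReal (8 * (b - a)) ^ p * nrm p U (lipH fun x => (φ x : ℂ)) := by
      rw [nrm, ← lintegral_const_mul' _ _ (ENNReal.rpow_ne_top_of_nonneg hp0.le
        ENNReal.ofReal_ne_top)]
      refine le_trans ?_ (setLIntegral_le_lintegral (Ioo a' b') _)
      rw [hw]
      refine setLIntegral_mono' measurableSet_Ioo fun x hx => ?_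
      obtain ⟨ρ, hρ, hxy⟩ := h x hx
      have hne : (Ioo a b).Nonempty := nonempty_Ioo.2 hab
      obtain ⟨y0, hy0⟩ := hne
      have h3 := far_lower (x := x) (D := 2 * (b - a)) (ρ := ρ) (ε := ε) h0 ⟨L, hL'⟩ hcs hI hρ
        ((hxy y0 hy0).1.trans (hxy y0 hy0).2) hε (fun y hy => hxy y (hsup y hy))
      have h4 : (1 : ℝ≥0∞) ≤ ENNReal.ofReal (8 * (b - a)) * ‖lipH (fun x => (φ x : ℂ)) x‖ₑ := by
        rw [← ofReal_norm, ← ENNReal.ofReal_mul (by positivity), ← ENNReal.ofReal_one]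
        refine ENNReal.ofReal_le_ofReal ?_
        rw [div_le_iff₀ (by positivity)] at h3
        linarith
      calc (U x : ℝ≥0∞) = 1 ^ p * U x := by rw [ENNReal.one_rpow, one_mul]
        _ ≤ (ENNReal.ofReal (8 * (b - a)) * ‖lipH (fun x => (φ x : ℂ)) x‖ₑ) ^ p * U x := by gcongr
        _ = _ := by rw [ENNReal.mul_rpow_of_nonneg _ _ hp0.le, mul_assoc]
    have hT0' : (T0 : ℝ≥0∞) ≠ 0 := by exact_mod_cast hT0.ne'
    calc w * (T0 : ℝ≥0∞) ^ (p - 1)
        ≤ (ENNReal.ofReal (8 * (b - a)) ^ p * (C * (T0 : ℝ≥0∞) ^ (1 - p))) *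
            (T0 : ℝ≥0∞) ^ (p - 1) := by
          gcongr
          exact h2.trans (by gcongr; exact h1.trans (by gcongr))
      _ = C * ENNReal.ofReal (8 * (b - a)) ^ p * ((T0 : ℝ≥0∞) ^ (1 - p) * (T0 : ℝ≥0∞) ^ (p - 1)) := by
          ring
      _ = C * ENNReal.ofReal (8 * (b - a)) ^ p := by
          rw [← ENNReal.rpow_add _ _ hT0' ENNReal.coe_ne_top]
          simp
  by_cases hw0 : w = 0
  · rw [hw0, zero_mul]; exact zero_le
  have hwt : w ≠ ∞ := by
    obtain ⟨R, hR⟩ : ∃ R : ℝ, Ioo a' b' ⊆ Icc (-R) R :=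
      ⟨max |a'| |b'|, fun x hx => abs_le.1 (by
        have := hx.1; have := hx.2
        rcases le_total 0 x with h | h
        · rw [abs_of_nonneg h]; exact (hx.2.le.trans (le_abs_self b')).trans (le_max_right _ _)
        · rw [abs_of_nonpos h]; exact ((neg_le_neg hx.1.le).trans (neg_le_abs a')).trans
            (le_max_left _ _))⟩
    exact ((lintegral_mono_set hR).trans_lt (hU.loc R)).ne
  have h5 : s ≤ (C * ENNReal.ofReal (8 * (b - a)) ^ p / w) ^ (1 / (p - 1)) := by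
    refine ENNReal.le_of_forall_nnreal_lt fun r hr => ?_
    by_cases hr0 : r = 0
    · rw [hr0]; exact zero_le
    have h6 := key r (pos_iff_ne_zero.2 hr0) hr
    have h7 : (r : ℝ≥0∞) ^ (p - 1) ≤ C * ENNReal.ofReal (8 * (b - a)) ^ p / w := by
      rw [ENNReal.le_div_iff_mul_le (Or.inl hw0) (Or.inl hwt), mul_comm]
      exact h6
    calc (r : ℝ≥0∞) = ((r : ℝ≥0∞) ^ (p - 1)) ^ (1 / (p - 1)) := by
          rw [← ENNReal.rpow_mul, mul_one_div_cancel hp1.ne', ENNReal.rpow_one]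
      _ ≤ _ := ENNReal.rpow_le_rpow h7 (by positivity)
  calc w * s ^ (p - 1) ≤ w * ((C * ENNReal.ofReal (8 * (b - a)) ^ p / w) ^ (1 / (p - 1))) ^ (p - 1) := by
        gcongr
    _ = w * (C * ENNReal.ofReal (8 * (b - a)) ^ p / w) := by
        rw [← ENNReal.rpow_mul, one_div_mul_cancel hp1.ne', ENNReal.rpow_one]
    _ ≤ C * ENNReal.ofReal (8 * (b - a)) ^ p := ENNReal.mul_div_le

theorem loc_Ioo (hU : IsWeight U) (a b : ℝ) : ∫⁻ x in Ioo a b, (U x : ℝ≥0∞) < ∞ := by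
  obtain ⟨R, hR⟩ : ∃ R : ℝ, Ioo a b ⊆ Icc (-R) R :=
    ⟨max |a| |b|, fun x hx => abs_le.1 (by
      rcases le_total 0 x with h | h
      · rw [abs_of_nonneg h]; exact (hx.2.le.trans (le_abs_self b)).trans (le_max_right _ _)
      · rw [abs_of_nonpos h]; exact ((neg_le_neg hx.1.le).trans (neg_le_abs a)).trans
          (le_max_left _ _))⟩
  exact (lintegral_mono_set hR).trans_lt (hU.loc R)

/-- necessity of the Muckenhoupt condition -/
theorem Strong.ap (hp : 1 < p) (hU : IsWeight U) (hS : Strong p U) : Ap p U := by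
  have hp0 : 0 < p := by linarith
  have hp1 : 0 < p - 1 := by linarith
  obtain ⟨C, hC⟩ := hS
  refine ⟨C * 8 ^ p * (C * 8 ^ p), fun a b hab => ?_⟩
  have hl : 0 < b - a := by linarith
  have hl0 : ENNReal.ofReal (b - a) ≠ 0 := (ENNReal.ofReal_pos.2 hl).ne'
  have hlt : ENNReal.ofReal (b - a) ≠ ∞ := ENNReal.ofReal_ne_top
  have e8 : ENNReal.ofReal (8 * (b - a)) ^ p = 8 ^ p * ENNReal.ofReal (b - a) ^ p := by
    rw [ENNReal.ofReal_mul (by norm_num), ENNReal.mul_rpow_of_nonneg _ _ hp0.le]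
    norm_num
  set ℓ := ENNReal.ofReal (b - a) with hℓ
  set w := ∫⁻ x in Ioo a b, (U x : ℝ≥0∞) with hw
  set s := ∫⁻ x in Ioo a b, sig p U x with hs
  set w' := ∫⁻ x in Ioo b (b + (b - a)), (U x : ℝ≥0∞) with hw'
  set s' := ∫⁻ x in Ioo b (b + (b - a)), sig p U x with hs'
  -- `w' s^{p-1} ≤ C (8ℓ)^p`
  have h1 : w' * s ^ (p - 1) ≤ C * (8 ^ p * ℓ ^ p) := by
    have := neighbour (a := a) (b := b) (a' := b) (b' := b + (b - a)) (ε := 1) hp hU hC hab
      (by norm_num) (fun x hx => ⟨x - b, by linarith [hx.1], fun y hy => ⟨by linarith [hy.2],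
        by linarith [hx.2, hy.1]⟩⟩)
    rw [e8] at this
    exact this
  have h2 : w * s' ^ (p - 1) ≤ C * (8 ^ p * ℓ ^ p) := by
    have := neighbour (a := b) (b := b + (b - a)) (a' := a) (b' := b) (ε := -1) hp hU hC
      (by linarith) (by norm_num) (fun x hx => ⟨b - x, by linarith [hx.2], fun y hy =>
        ⟨by linarith [hy.1], by linarith [hx.1, hy.2]⟩⟩)
    rw [show b + (b - a) - b = b - a by ring, e8] at this
    exact this
  have hwt : w ≠ ∞ := (loc_Ioo hU a b).ne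
  have hwt' : w' ≠ ∞ := (loc_Ioo hU _ _).ne
  have h8 : (8 : ℝ≥0∞) ^ p ≠ ∞ := ENNReal.rpow_ne_top_of_nonneg hp0.le (by norm_num)
  have hℓp : ℓ ^ p ≠ ∞ := ENNReal.rpow_ne_top_of_nonneg hp0.le hlt
  have hℓp0 : ℓ ^ p ≠ 0 := by simp [ENNReal.rpow_eq_zero_iff, hl0, hlt]
  -- main inequality
  have main : w * s ^ (p - 1) ≤ (C * 8 ^ p) * (C * 8 ^ p) * ℓ ^ p := by
    by_cases hw0 : w = 0
    · rw [hw0, zero_mul]; exact zero_le
    have hs'p : s' ^ (p - 1) ≠ ∞ := by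
      intro h
      rw [h, ENNReal.mul_top hw0, top_le_iff] at h2
      exact ENNReal.mul_ne_top ENNReal.coe_ne_top (ENNReal.mul_ne_top h8 hℓp) h2
    have hs't : s' ≠ ∞ := by
      intro h
      apply hs'p
      rw [h, ENNReal.top_rpow_of_pos hp1]
    have h3 : ℓ ^ p ≤ w' * s' ^ (p - 1) := by
      have := holder_set (S := Ioo b (b + (b - a))) hp hU.meas (lt_top_iff_ne_top.2 hs't)
        (h := fun _ => 1) measurable_const
      rw [lintegral_const, one_mul, Measure.restrict_apply_univ, Real.volume_Ioo,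
        show b + (b - a) - b = b - a by ring] at this
      simpa using this
    have hs'0 : s' ^ (p - 1) ≠ 0 := by
      intro h
      rw [h, mul_zero] at h3
      exact hℓp0 (le_antisymm h3 zero_le)
    have h4 : w ≤ C * 8 ^ p * w' := by
      have h5 : w * s' ^ (p - 1) ≤ (C * 8 ^ p * w') * s' ^ (p - 1) :=
        calc w * s' ^ (p - 1) ≤ C * (8 ^ p * ℓ ^ p) := h2
          _ ≤ C * (8 ^ p * (w' * s' ^ (p - 1))) := by gcongr
          _ = _ := by ring
      exact (ENNReal.mul_le_mul_iff_left hs'0 hs'p).1 h5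
    calc w * s ^ (p - 1) ≤ (C * 8 ^ p * w') * s ^ (p - 1) := by gcongr
      _ = C * 8 ^ p * (w' * s ^ (p - 1)) := by ring
      _ ≤ C * 8 ^ p * (C * (8 ^ p * ℓ ^ p)) := by gcongr
      _ = _ := by ring
  have e : (ℓ⁻¹ * w) * (ℓ⁻¹ * s) ^ (p - 1) = (w * s ^ (p - 1)) * (ℓ ^ p)⁻¹ := by
    rw [ENNReal.mul_rpow_of_nonneg _ _ hp1.le]
    have : ℓ⁻¹ * ℓ⁻¹ ^ (p - 1) = (ℓ ^ p)⁻¹ := by
      calc ℓ⁻¹ * ℓ⁻¹ ^ (p - 1) = ℓ⁻¹ ^ (1 : ℝ) * ℓ⁻¹ ^ (p - 1) := by rw [ENNReal.rpow_one]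
        _ = ℓ⁻¹ ^ (1 + (p - 1)) := (ENNReal.rpow_add _ _ (ENNReal.inv_ne_zero.2 hlt)
            (ENNReal.inv_ne_top.2 hl0)).symm
        _ = ℓ⁻¹ ^ p := by congr 1; ring
        _ = _ := ENNReal.inv_rpow _ _
    rw [← this]; ring
  show (ℓ⁻¹ * w) * (ℓ⁻¹ * s) ^ (p - 1) ≤ _
  rw [e]
  calc (w * s ^ (p - 1)) * (ℓ ^ p)⁻¹ ≤ ((C * 8 ^ p) * (C * 8 ^ p) * ℓ ^ p) * (ℓ ^ p)⁻¹ := by gcongr
    _ = (C * 8 ^ p) * (C * 8 ^ p) := by
        rw [mul_assoc, ENNReal.mul_inv_cancel hℓp0 hℓp, mul_one]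
    _ = _ := by
        rw [ENNReal.coe_mul, ENNReal.coe_mul, ENNReal.coe_rpow_of_nonneg _ hp0.le]
        norm_num

end Pool.Agent.N246.MZ
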